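import Pool.Agent.KSN.Defs

/-!
# Few elements: a gap by counting
-/

set_option autoImplicit false

open Finset

namespace Pool.Agent.KSN

/-- If `k (k - 1) < n`, a vector modulo `n` has `k - 1` consecutive residues free. -/
theorem small_k (m n k : ℕ) (h : k * (k - 1) < n) (A : Fin k → ZMod n) :
    ∃ B : Fin k → ZMod m, Phi B ≤ Phi A := by
  classical
  have hn : 0 < n := by omega
  have : NeZero n := ⟨hn.ne'⟩
  by_cases hkn : n < k
  · -- then `k ≤ 1`
    exfalso
    have h1 : n * (k - 1) ≤ k * (k - 1) := Nat.mul_le_mul_right _ hkn.le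
    have h2 : n * 1 ≤ n * (k - 1) := Nat.mul_le_mul_left _ (by omega)
    omega
  push Not at hkn
  -- a stretch of length `k - 1` free of values of `A`
  obtain ⟨c, hc⟩ : ∃ c : ZMod n, ∀ j : Fin k, ∀ i : Fin (k - 1), A j ≠ c + ((i : ℕ) : ZMod n) := by
    by_contra hcon
    push Not at hcon
    have hsurj : Function.Surjective
        (fun q : Fin k × Fin (k - 1) => A q.1 - ((q.2 : ℕ) : ZMod n)) := by
      intro c
      obtain ⟨j, i, hji⟩ := hcon c
      exact ⟨(j, i), by simp [hji]⟩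
    have := Fintype.card_le_of_surjective _ hsurj
    rw [ZMod.card, Fintype.card_prod, Fintype.card_fin, Fintype.card_fin] at this
    omega
  let b : Fin k → ℕ := fun j => (A j - (c + ((k - 1 : ℕ) : ZMod n))).val
  have hbv : ∀ j, ((b j : ℕ) : ZMod n) = A j - (c + ((k - 1 : ℕ) : ZMod n)) := by
    intro j
    simp only [b]
    rw [ZMod.natCast_zmod_val]
  have hb : ∀ j, b j + k ≤ n := by
    intro j
    by_contra hcon
    push Not at hcon
    have hlt : b j < n := ZMod.val_lt _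
    have hi : b j + (k - 1) - n < k - 1 := by omega
    apply hc j ⟨b j + (k - 1) - n, hi⟩
    have h1 : A j = c + (((k - 1 : ℕ) : ZMod n) + (b j : ZMod n)) := by
      rw [hbv j]
      ring
    rw [h1]
    congr 1
    have h2 : ((b j + (k - 1) - n : ℕ) : ZMod n) + ((n : ℕ) : ZMod n) =
        ((k - 1 : ℕ) : ZMod n) + (b j : ZMod n) := by
      rw [← Nat.cast_add, ← Nat.cast_add]
      congr 1
      omega
    rw [ZMod.natCast_self, add_zero] at h2
    exact h2.symm
  refine ⟨fun j => ((b j : ℕ) : ZMod m), ?_⟩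
  unfold Phi
  apply card_le_card
  intro τ hτ
  rw [mem_filter] at hτ ⊢
  refine ⟨mem_univ _, ?_⟩
  intro j l hjl
  apply hτ.2
  have hjl' : A j + ((τ j : ℕ) : ZMod n) = A l + ((τ l : ℕ) : ZMod n) := hjl
  have h1 : ((b j + (τ j : ℕ) : ℕ) : ZMod n) = ((b l + (τ l : ℕ) : ℕ) : ZMod n) := by
    push_cast
    rw [hbv, hbv]
    calc A j - (c + ((k - 1 : ℕ) : ZMod n)) + ((τ j : ℕ) : ZMod n)
        = (A j + ((τ j : ℕ) : ZMod n)) - (c + ((k - 1 : ℕ) : ZMod n)) := by ring
      _ = (A l + ((τ l : ℕ) : ZMod n)) - (c + ((k - 1 : ℕ) : ZMod n)) := by rw [hjl']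
      _ = _ := by ring
  rw [ZMod.natCast_eq_natCast_iff'] at h1
  have hj := hb j
  have hl := hb l
  have hj2 : (τ j : ℕ) < k := (τ j).isLt
  have hl2 : (τ l : ℕ) < k := (τ l).isLt
  rw [Nat.mod_eq_of_lt (by omega), Nat.mod_eq_of_lt (by omega)] at h1
  show ((b j : ℕ) : ZMod m) + ((τ j : ℕ) : ZMod m) = ((b l : ℕ) : ZMod m) + ((τ l : ℕ) : ZMod m)
  rw [← Nat.cast_add, ← Nat.cast_add, h1]

end Pool.Agent.KSN
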