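import Pool.Agent.KSN.Main
import Pool.Agent.KSN.Gap
import Pool.Agent.Hhelper49.KezSne.Main

/-!
# The statement with the infimum
-/

set_option autoImplicit false

open Finset

namespace Pool.Agent.KSN

theorem comparison (m n k : ℕ) (h : k * (k - 1) < n ∨
    25000000 * k * (Nat.log 2 k + 1) ^ 2 ≤ n) (A : Fin k → ZMod n) :
    ∃ B : Fin k → ZMod m, Phi B ≤ Phi A := by
  classical
  rcases h with h | h
  · exact small_k m n k h A
  · rcases Nat.eq_zero_or_pos k with hk | hk
    · subst hk
      refine ⟨fun j => j.elim0, ?_⟩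
      unfold Phi
      apply card_le_card
      intro τ hτ
      rw [mem_filter] at hτ ⊢
      exact ⟨mem_univ _, fun i => i.elim0⟩
    · exact near_linear m n k hk h A

/-- `N(n, k)`: the least number, over all vectors `a` with `k` entries modulo `n`, of permutations
`π` for which the sums `a (π i) + i` are pairwise distinct; `N(0, k)` is the same number for
vectors of integers. -/
noncomputable def N (n k : ℕ) : ℕ :=
  ⨅ a : Fin k → ZMod n,
    {π : Equiv.Perm (Fin k) |
      Function.Injective (fun i : Fin k => a (π i) + (((i : ℕ)) : ZMod n))}.ncard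

theorem N_le_of_comparison (m n k : ℕ)
    (h : ∀ A : Fin k → ZMod n, ∃ B : Fin k → ZMod m, Phi B ≤ Phi A) : N m k ≤ N n k := by
  unfold N
  apply le_ciInf
  intro a
  obtain ⟨B, hB⟩ := h a
  rw [phi_eq, phi_eq] at hB
  exact (ciInf_le (OrderBot.bddBelow _) B).trans hB

/-- Reduction of an integer vector modulo `m`. -/
theorem reduce (m k : ℕ) (A : Fin k → ZMod 0) : ∃ B : Fin k → ZMod m, Phi B ≤ Phi A := by
  classical
  set φ : ZMod 0 →+* ZMod m := ZMod.castHom (dvd_zero m) (ZMod m) with hφ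
  refine ⟨fun j => φ (A j), ?_⟩
  unfold Phi
  apply card_le_card
  intro τ hτ
  rw [mem_filter] at hτ ⊢
  refine ⟨mem_univ _, ?_⟩
  intro i j hij
  apply hτ.2
  have h1 : A i + ((τ i : ℕ) : ZMod 0) = A j + ((τ j : ℕ) : ZMod 0) := hij
  have h2 := congrArg φ h1
  rw [map_add, map_add, map_natCast, map_natCast] at h2
  exact h2

theorem N_le_zero (m k : ℕ) : N m k ≤ N 0 k := N_le_of_comparison m 0 k (reduce m k)

theorem final :
    (∀ m k : ℕ, N m k ≤ N 0 k) ∧
    (∀ n k : ℕ, (k * (k - 1) < n ∨ 25000000 * k * (Nat.log 2 k + 1) ^ 2 ≤ n) →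
      N n k = N 0 k) ∧
    (∀ n k : ℕ, 0 < n →
      (n ≤ k ∨ k * (k - 1) ≤ n ∨ 25000000 * k * (Nat.log 2 k + 1) ^ 2 ≤ n + 1) →
      N n k ≤ N (n + 1) k) := by
  refine ⟨N_le_zero, fun n k h => ?_, fun n k hn h => ?_⟩
  · exact le_antisymm (N_le_zero n k) (N_le_of_comparison 0 n k (comparison 0 n k h))
  · rcases h with h | h | h
    · exact Pool.Agent.Hhelper49.KezSne.mono_range n k hn (Or.inl h)
    · exact N_le_of_comparison n (n + 1) k (comparison n (n + 1) k (Or.inl (by omega)))
    · exact N_le_of_comparison n (n + 1) k (comparison n (n + 1) k (Or.inr h))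

end Pool.Agent.KSN
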