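import Pool.Agent.KSN.LLL

/-!
# Negative dependency for random bijections

An event is a pair of pairs `((u, h), (u', h'))`; it holds for `τ` if `τ u = h` and `τ u' = h'`.
-/

set_option autoImplicit false

open Finset

namespace Pool.Agent.KSN

/-- Events. -/
abbrev Ev (k : ℕ) : Type := (Fin k × Fin k) × (Fin k × Fin k)

variable {k : ℕ}

/-- The event `B` holds for `τ`. -/
def holds (B : Ev k) (τ : Equiv.Perm (Fin k)) : Prop := τ B.1.1 = B.1.2 ∧ τ B.2.1 = B.2.2

/-- Two events share a row or a column. -/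
def adj (B B' : Ev k) : Prop :=
  (B'.1.1 = B.1.1 ∨ B'.1.1 = B.2.1 ∨ B'.1.2 = B.1.2 ∨ B'.1.2 = B.2.2) ∨
  (B'.2.1 = B.1.1 ∨ B'.2.1 = B.2.1 ∨ B'.2.2 = B.1.2 ∨ B'.2.2 = B.2.2)

/-- A set of permutations which restricts to all bijections from `U` to `H`. -/
structure Swappable (X : Finset (Equiv.Perm (Fin k))) (U H : Finset (Fin k)) : Prop where
  maps : ∀ τ ∈ X, ∀ u ∈ U, τ u ∈ H
  swap : ∀ τ ∈ X, ∀ h ∈ H, ∀ g ∈ H, Equiv.swap h g * τ ∈ X

theorem step (τ : Equiv.Perm (Fin k)) (u h g a b : Fin k) (hu : τ u = h) (ha : a ≠ u) (hb : b ≠ h)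
    (hab : Equiv.swap h g (τ a) = b) : τ a = b := by
  have h1 : τ a ≠ h := by
    intro h2
    apply ha
    apply τ.injective
    rw [h2, hu]
  have h2 : τ a ≠ g := by
    intro h3
    rw [h3, Equiv.swap_apply_right] at hab
    exact hb hab.symm
  rw [Equiv.swap_apply_of_ne_of_ne h1 h2] at hab
  exact hab

open scoped Classical in
/-- One row. -/
theorem neg1 (X : Finset (Equiv.Perm (Fin k))) (U H : Finset (Fin k)) (hX : Swappable X U H)
    (u h : Fin k) (hu : u ∈ U) (hh : h ∈ H) (S : Finset (Ev k))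
    (hS : ∀ B' ∈ S, ¬ adj ((u, h), (u, h)) B') :
    H.card * (hit X holds ((u, h), (u, h)) S).card ≤ (avoid X holds S).card := by
  have h1 : (avoid X holds S).card = ∑ g ∈ H, ((avoid X holds S).filter (fun τ => τ u = g)).card := by
    apply card_eq_sum_card_fiberwise
    intro τ hτ
    have hτ' : τ ∈ avoid X holds S := hτ
    simp only [avoid, mem_filter] at hτ'
    exact hX.maps τ hτ'.1 u hu
  rw [h1, ← smul_eq_mul, ← sum_const]
  apply sum_le_sum
  intro g hg
  apply card_le_card_of_injOn (fun τ => Equiv.swap h g * τ)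
  · intro τ hτ
    have hτ' : τ ∈ hit X holds ((u, h), (u, h)) S := hτ
    simp only [hit, avoid, mem_filter, holds] at hτ'
    obtain ⟨⟨hX1, hav⟩, hu1, -⟩ := hτ'
    simp only [avoid, coe_filter, Set.mem_ofPred_eq, mem_filter]
    refine ⟨⟨hX.swap τ hX1 h hh g hg, ?_⟩, ?_⟩
    · intro B' hB' hB'h
      apply hav B' hB'
      have hna := hS B' hB'
      simp only [adj, not_or] at hna
      obtain ⟨⟨a1, -, a3, -⟩, b1, -, b3, -⟩ := hna
      simp only [holds, Equiv.Perm.mul_apply] at hB'h ⊢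
      exact ⟨step τ u h g _ _ hu1 a1 a3 hB'h.1, step τ u h g _ _ hu1 b1 b3 hB'h.2⟩
    · rw [Equiv.Perm.mul_apply, hu1, Equiv.swap_apply_left]
  · intro τ _ τ' _ heq
    exact mul_left_cancel heq

open scoped Classical in
/-- Two rows. -/
theorem neg2 (X : Finset (Equiv.Perm (Fin k))) (U H : Finset (Fin k)) (hX : Swappable X U H)
    (u h u' h' : Fin k) (hu : u ∈ U) (hh : h ∈ H) (hu' : u' ∈ U) (hh' : h' ∈ H) (huu : u ≠ u')
    (hhh : h ≠ h') (S : Finset (Ev k)) (hS : ∀ B' ∈ S, ¬ adj ((u, h), (u', h')) B') :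
    (H.card * H.card - H.card) * (hit X holds ((u, h), (u', h')) S).card ≤
      (avoid X holds S).card := by
  have h1 : (avoid X holds S).card = ∑ g ∈ H.offDiag,
      ((avoid X holds S).filter (fun τ => (τ u, τ u') = g)).card := by
    apply card_eq_sum_card_fiberwise
    intro τ hτ
    have hτ' : τ ∈ avoid X holds S := hτ
    simp only [avoid, mem_filter] at hτ'
    show (τ u, τ u') ∈ (H.offDiag : Set (Fin k × Fin k))
    rw [mem_coe, mem_offDiag]
    exact ⟨hX.maps τ hτ'.1 u hu, hX.maps τ hτ'.1 u' hu', fun heq => huu (τ.injective heq)⟩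
  rw [h1, ← offDiag_card, ← smul_eq_mul, ← sum_const]
  apply sum_le_sum
  rintro ⟨g, g'⟩ hg
  rw [mem_offDiag] at hg
  obtain ⟨hg1, hg2, hgg⟩ := hg
  simp only at hg1 hg2 hgg
  set x := Equiv.swap h g h' with hx
  have hxH : x ∈ H := by
    by_cases hc : h' = g
    · rw [hx, hc, Equiv.swap_apply_right]
      exact hh
    · rw [hx, Equiv.swap_apply_of_ne_of_ne hhh.symm hc]
      exact hh'
  have hxg : x ≠ g := by
    intro heq
    have : Equiv.swap h g h' = Equiv.swap h g h := by rw [← hx, heq, Equiv.swap_apply_left]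
    exact hhh ((Equiv.swap h g).injective this).symm
  have hxx : x = h ∨ x = h' := by
    by_cases hc : h' = g
    · left
      rw [hx, hc, Equiv.swap_apply_right]
    · right
      rw [hx, Equiv.swap_apply_of_ne_of_ne hhh.symm hc]
  apply card_le_card_of_injOn (fun τ => Equiv.swap x g' * (Equiv.swap h g * τ))
  · intro τ hτ
    have hτ' : τ ∈ hit X holds ((u, h), (u', h')) S := hτ
    simp only [hit, avoid, mem_filter, holds] at hτ'
    obtain ⟨⟨hX1, hav⟩, hu1, hu2⟩ := hτ'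
    simp only [avoid, coe_filter, Set.mem_ofPred_eq, mem_filter]
    have hmem1 := hX.swap τ hX1 h hh g hg1
    have hmem2 := hX.swap _ hmem1 x hxH g' hg2
    have e1 : (Equiv.swap h g * τ) u' = x := by
      rw [Equiv.Perm.mul_apply, hu2]
    have e2 : (Equiv.swap h g * τ) u = g := by
      rw [Equiv.Perm.mul_apply, hu1, Equiv.swap_apply_left]
    refine ⟨⟨hmem2, ?_⟩, ?_⟩
    · intro B' hB' hB'h
      apply hav B' hB'
      have hna := hS B' hB'
      simp only [adj, not_or] at hna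
      obtain ⟨⟨a1, a2, a3, a4⟩, b1, b2, b3, b4⟩ := hna
      simp only [holds] at hB'h ⊢
      have ax : B'.1.2 ≠ x := by
        rcases hxx with e | e <;> rw [e] <;> assumption
      have bx : B'.2.2 ≠ x := by
        rcases hxx with e | e <;> rw [e] <;> assumption
      have s1 := step (Equiv.swap h g * τ) u' x g' B'.1.1 B'.1.2 e1 a2 ax hB'h.1
      have s2 := step (Equiv.swap h g * τ) u' x g' B'.2.1 B'.2.2 e1 b2 bx hB'h.2
      exact ⟨step τ u h g _ _ hu1 a1 a3 s1, step τ u h g _ _ hu1 b1 b3 s2⟩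
    · rw [Equiv.Perm.mul_apply, Equiv.Perm.mul_apply _ _ u', e2, e1, Equiv.swap_apply_left,
        Equiv.swap_apply_of_ne_of_ne hxg.symm hgg]
  · intro τ _ τ' _ heq
    exact mul_left_cancel (mul_left_cancel heq)

/-- The probability of an event. -/
noncomputable def prob (M : ℕ) (B : Ev k) : ℝ :=
  if B.1 = B.2 then 1 / (M : ℝ) else 1 / ((M : ℝ) * ((M : ℝ) - 1))

/-- Admissible events. -/
def Adm (U H : Finset (Fin k)) (B : Ev k) : Prop :=
  B.1.1 ∈ U ∧ B.1.2 ∈ H ∧ B.2.1 ∈ U ∧ B.2.2 ∈ H ∧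
    (B.1 = B.2 ∨ (B.1.1 ≠ B.2.1 ∧ B.1.2 ≠ B.2.2))

theorem prob_nonneg (M : ℕ) (hM : 2 ≤ M) (B : Ev k) : 0 ≤ prob M B := by
  unfold prob
  have h2 : (2 : ℝ) ≤ M := by exact_mod_cast hM
  split_ifs
  · positivity
  · have : (0 : ℝ) < (M : ℝ) - 1 := by linarith
    positivity

theorem neg_dep (X : Finset (Equiv.Perm (Fin k))) (U H : Finset (Fin k)) (hX : Swappable X U H)
    (hM : 2 ≤ H.card) (B : Ev k) (hB : Adm U H B) (S : Finset (Ev k))
    (hS : ∀ B' ∈ S, ¬ adj B B') :
    ((hit X holds B S).card : ℝ) ≤ prob H.card B * (avoid X holds S).card := by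
  have h2 : (2 : ℝ) ≤ H.card := by exact_mod_cast hM
  obtain ⟨⟨u, h⟩, ⟨u', h'⟩⟩ := B
  obtain ⟨b1, b2, b3, b4, b5⟩ := hB
  simp only at b1 b2 b3 b4 b5
  unfold prob
  by_cases heq : ((u, h) : Fin k × Fin k) = (u', h')
  · rw [if_pos heq]
    simp only [Prod.mk.injEq] at heq
    obtain ⟨rfl, rfl⟩ := heq
    have h3 := neg1 X U H hX u h b1 b2 S hS
    have h4 : (H.card : ℝ) * (hit X holds ((u, h), (u, h)) S).card ≤ (avoid X holds S).card := by
      exact_mod_cast h3
    rw [one_div, inv_mul_eq_div, le_div_iff₀ (by linarith)]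
    linarith
  · rw [if_neg heq]
    rcases b5 with b5 | ⟨b5, b6⟩
    · exact absurd b5 heq
    have h3 := neg2 X U H hX u h u' h' b1 b2 b3 b4 b5 b6 S hS
    have h4 : (((H.card * H.card - H.card : ℕ)) : ℝ) * (hit X holds ((u, h), (u', h')) S).card ≤
        (avoid X holds S).card := by
      exact_mod_cast h3
    rw [Nat.cast_sub (Nat.le_mul_self _), Nat.cast_mul] at h4
    have h5 : (0 : ℝ) < (H.card : ℝ) * ((H.card : ℝ) - 1) := by
      have : (0 : ℝ) < (H.card : ℝ) - 1 := by linarith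
      positivity
    rw [one_div, inv_mul_eq_div, le_div_iff₀ h5]
    nlinarith [h4]

end Pool.Agent.KSN
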