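import Pool.Agent.KSN.Defs
import Pool.Agent.KSN.Bij

/-!
# The collision probability of one element (conditional local lemma)
-/

set_option autoImplicit false

open Finset

namespace Pool.Agent.KSN

theorem sum_filter_or_le {ι : Type*} (s : Finset ι) (f : ι → ℝ) (hf : ∀ i ∈ s, 0 ≤ f i)
    (R P Q : ι → Prop) [DecidablePred R] [DecidablePred P] [DecidablePred Q]
    (hR : ∀ i, R i → P i ∨ Q i) :
    ∑ i ∈ s.filter R, f i ≤ ∑ i ∈ s.filter P, f i + ∑ i ∈ s.filter Q, f i := by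
  rw [sum_filter, sum_filter, sum_filter, ← sum_add_distrib]
  apply sum_le_sum
  intro i hi
  have := hf i hi
  by_cases h3 : R i
  · rcases hR i h3 with h1 | h2
    · by_cases h2 : Q i <;> simp [h1, h2, h3, this]
    · by_cases h1 : P i <;> simp [h1, h2, h3, this]
  · by_cases h1 : P i <;> by_cases h2 : Q i <;> simp [h1, h2, h3, this]

section

variable {n k : ℕ}

/-- The class of permutations which agree with `τ₀` outside `U`. -/
def cls (U : Finset (Fin k)) (τ₀ : Equiv.Perm (Fin k)) : Finset (Equiv.Perm (Fin k)) :=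
  univ.filter (fun τ => ∀ j, j ∉ U → τ j = τ₀ j)

theorem cls_swappable (U : Finset (Fin k)) (τ₀ : Equiv.Perm (Fin k)) :
    Swappable (cls U τ₀) U (U.image τ₀) := by
  constructor
  · intro τ hτ u hu
    simp only [cls, mem_filter, mem_univ, true_and] at hτ
    rw [mem_image]
    refine ⟨τ₀.symm (τ u), ?_, by simp⟩
    by_contra hcon
    have h1 := hτ _ hcon
    rw [Equiv.apply_symm_apply] at h1
    have h2 := τ.injective h1
    rw [h2] at hcon
    exact hcon hu
  · intro τ hτ h hh g hg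
    simp only [cls, mem_filter, mem_univ, true_and] at hτ ⊢
    intro j hj
    rw [Equiv.Perm.mul_apply, hτ j hj]
    apply Equiv.swap_apply_of_ne_of_ne
    · rintro rfl
      rw [mem_image] at hh
      obtain ⟨a, ha, hab⟩ := hh
      rw [τ₀.injective hab] at ha
      exact hj ha
    · rintro rfl
      rw [mem_image] at hg
      obtain ⟨a, ha, hab⟩ := hg
      rw [τ₀.injective hab] at ha
      exact hj ha

theorem card_image_perm (U : Finset (Fin k)) (τ₀ : Equiv.Perm (Fin k)) :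
    (U.image τ₀).card = U.card := card_image_of_injective _ τ₀.injective

open scoped Classical in
/-- The events of the class of `τ₀`. -/
noncomputable def evs (A : Fin k → ZMod n) (U : Finset (Fin k)) (τ₀ : Equiv.Perm (Fin k)) :
    Finset (Ev k) :=
  univ.filter (fun B => Adm U (U.image τ₀) B ∧
    ((B.1 = B.2 ∧ ∃ j, j ∉ U ∧
        A B.1.1 + ((B.1.2 : ℕ) : ZMod n) = A j + ((τ₀ j : ℕ) : ZMod n)) ∨
      (B.1.1 ≠ B.2.1 ∧ A B.1.1 + ((B.1.2 : ℕ) : ZMod n) = A B.2.1 + ((B.2.2 : ℕ) : ZMod n))))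

theorem evs_swap (A : Fin k → ZMod n) (U : Finset (Fin k)) (τ₀ : Equiv.Perm (Fin k)) (B : Ev k)
    (hB : B ∈ evs A U τ₀) : B.swap ∈ evs A U τ₀ := by
  obtain ⟨⟨u, h⟩, ⟨u', h'⟩⟩ := B
  simp only [evs, Adm, mem_filter, mem_univ, true_and, Prod.swap] at hB ⊢
  obtain ⟨⟨b1, b2, b3, b4, b5⟩, b6⟩ := hB
  refine ⟨⟨b3, b4, b1, b2, ?_⟩, ?_⟩
  · rcases b5 with b5 | b5
    · left; exact b5.symm
    · right; exact ⟨b5.1.symm, b5.2.symm⟩
  · rcases b6 with ⟨b6, b7⟩ | ⟨b6, b7⟩
    · left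
      simp only [Prod.mk.injEq] at b6
      obtain ⟨rfl, rfl⟩ := b6
      exact ⟨rfl, b7⟩
    · right
      exact ⟨b6.symm, b7.symm⟩

theorem prob_swap (M : ℕ) (B : Ev k) : prob M B.swap = prob M B := by
  unfold prob
  by_cases h : B.1 = B.2
  · rw [if_pos h, if_pos (by simpa using h.symm)]
  · rw [if_neg h, if_neg (by simpa using fun h' => h h'.symm)]

open scoped Classical in
theorem sum_snd (A : Fin k → ZMod n) (U : Finset (Fin k)) (τ₀ : Equiv.Perm (Fin k)) (M : ℕ)
    (P : Fin k × Fin k → Prop) :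
    ∑ B ∈ (evs A U τ₀).filter (fun B => P B.2), prob M B =
      ∑ B ∈ (evs A U τ₀).filter (fun B => P B.1), prob M B := by
  apply sum_nbij' (fun B => B.swap) (fun B => B.swap)
  · intro B hB
    rw [mem_filter] at hB ⊢
    exact ⟨evs_swap A U τ₀ B hB.1, hB.2⟩
  · intro B hB
    rw [mem_filter] at hB ⊢
    exact ⟨evs_swap A U τ₀ B hB.1, hB.2⟩
  · intro B _
    exact Prod.swap_swap B
  · intro B _
    exact Prod.swap_swap B
  · intro B _
    exact (prob_swap M B).symm

/-- Slots inject modulo `n`. -/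
theorem slot_inj (hkn : k ≤ n) (s t : Fin k) (h : ((s : ℕ) : ZMod n) = ((t : ℕ) : ZMod n)) :
    s = t := by
  rw [ZMod.natCast_eq_natCast_iff'] at h
  rw [Nat.mod_eq_of_lt (lt_of_lt_of_le s.isLt hkn), Nat.mod_eq_of_lt (lt_of_lt_of_le t.isLt hkn)] at h
  exact Fin.ext h

open scoped Classical in
/-- `deg` splits. -/
theorem deg_split (A : Fin k → ZMod n) (U : Finset (Fin k)) (u : Fin k) (hu : u ∈ U) :
    (Uᶜ.filter (fun j => Rel A u j)).card + (U.filter (fun j => j ≠ u ∧ Rel A u j)).card ≤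
      deg A u := by
  unfold deg
  rw [← card_union_of_disjoint]
  · apply card_le_card
    intro j hj
    rw [mem_union, mem_filter, mem_filter] at hj
    rw [mem_filter]
    rcases hj with hj | hj
    · refine ⟨mem_univ _, ?_, hj.2⟩
      rintro rfl
      exact (mem_compl.mp hj.1) hu
    · exact ⟨mem_univ _, hj.2⟩
  · rw [disjoint_left]
    intro j hj hj'
    exact (mem_compl.mp (mem_filter.mp hj).1) (mem_filter.mp hj').1

open scoped Classical in
/-- Row sums. -/
theorem row_sum (hkn : k ≤ n) (A : Fin k → ZMod n) (U : Finset (Fin k))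
    (τ₀ : Equiv.Perm (Fin k)) (Δ : ℕ) (hdeg : ∀ u ∈ U, deg A u ≤ Δ) (hM : 2 ≤ U.card)
    (u : Fin k) :
    ∑ B ∈ (evs A U τ₀).filter (fun B => B.1.1 = u), prob U.card B ≤
      (Δ : ℝ) / ((U.card : ℝ) - 1) := by
  have h2 : (2 : ℝ) ≤ U.card := by exact_mod_cast hM
  have h1 : (0 : ℝ) < (U.card : ℝ) - 1 := by linarith
  by_cases hu : u ∈ U
  swap
  · rw [filter_eq_empty_iff.mpr, sum_empty]
    · positivity
    · intro B hB hBu
      simp only [evs, Adm, mem_filter] at hB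
      rw [← hBu] at hu
      exact hu hB.2.1.1
  set F := (evs A U τ₀).filter (fun B => B.1.1 = u) with hF
  have hsplit : ∑ B ∈ F, prob U.card B =
      ∑ B ∈ F.filter (fun B => B.1 = B.2), prob U.card B +
      ∑ B ∈ F.filter (fun B => ¬ B.1 = B.2), prob U.card B :=
    (sum_filter_add_sum_filter_not _ _ _).symm
  have hs1 : ∑ B ∈ F.filter (fun B => B.1 = B.2), prob U.card B =
      (F.filter (fun B => B.1 = B.2)).card * (1 / (U.card : ℝ)) := by
    rw [← nsmul_eq_mul, ← sum_const]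
    apply sum_congr rfl
    intro B hB
    unfold prob
    rw [if_pos (mem_filter.mp hB).2]
  have hs2 : ∑ B ∈ F.filter (fun B => ¬ B.1 = B.2), prob U.card B =
      (F.filter (fun B => ¬ B.1 = B.2)).card * (1 / ((U.card : ℝ) * ((U.card : ℝ) - 1))) := by
    rw [← nsmul_eq_mul, ← sum_const]
    apply sum_congr rfl
    intro B hB
    unfold prob
    rw [if_neg (mem_filter.mp hB).2]
  have hc1 : (F.filter (fun B => B.1 = B.2)).card ≤ (Uᶜ.filter (fun j => Rel A u j)).card := by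
    apply card_le_card_of_forall_subsingleton
      (fun (B : Ev k) j => A u + ((B.1.2 : ℕ) : ZMod n) = A j + ((τ₀ j : ℕ) : ZMod n))
    · intro B hB
      simp only [hF, evs, Adm, mem_filter, mem_univ, true_and] at hB
      obtain ⟨⟨⟨hAdm, hev⟩, hBu⟩, hB12⟩ := hB
      rcases hev with ⟨-, j, hj, hj2⟩ | ⟨hne, -⟩
      · rw [hBu] at hj2
        exact ⟨j, by rw [mem_filter, mem_compl]; exact ⟨hj, B.1.2, τ₀ j, hj2⟩, hj2⟩
      · exact absurd (congrArg Prod.fst hB12) hne
    · intro j _ B hB B' hB'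
      simp only [hF, mem_filter, Set.mem_ofPred_eq] at hB hB'
      have e1 : ((B.1.2 : ℕ) : ZMod n) = ((B'.1.2 : ℕ) : ZMod n) := by
        have := hB.2.trans hB'.2.symm
        exact add_left_cancel this
      have e2 := slot_inj hkn _ _ e1
      have e3 : B.1 = B'.1 := Prod.ext (hB.1.1.2.trans hB'.1.1.2.symm) e2
      exact Prod.ext e3 (by rw [← hB.1.2, ← hB'.1.2, e3])
  have hc2 : (F.filter (fun B => ¬ B.1 = B.2)).card ≤
      (U.filter (fun j => j ≠ u ∧ Rel A u j)).card * U.card := by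
    rw [← card_image_perm U τ₀, ← card_product]
    apply card_le_card_of_injOn (fun B => (B.2.1, B.1.2))
    · intro B hB
      have hB' : B ∈ F.filter (fun B => ¬ B.1 = B.2) := hB
      simp only [hF, evs, Adm, mem_filter, mem_univ, true_and] at hB'
      obtain ⟨⟨⟨hAdm, hev⟩, hBu⟩, hB12⟩ := hB'
      rcases hev with ⟨heq, -⟩ | ⟨hne, hsum⟩
      · exact absurd heq hB12
      rw [mem_coe, mem_product, mem_filter]
      rw [hBu] at hne hsum
      exact ⟨⟨hAdm.2.2.1, hne.symm, B.1.2, B.2.2, hsum⟩, hAdm.2.1⟩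
    · intro B hB B' hB' heq
      have hB2 : B ∈ F.filter (fun B => ¬ B.1 = B.2) := hB
      have hB2' : B' ∈ F.filter (fun B => ¬ B.1 = B.2) := hB'
      simp only [hF, evs, Adm, mem_filter, mem_univ, true_and] at hB2 hB2'
      obtain ⟨⟨⟨-, hev⟩, hBu⟩, hB12⟩ := hB2
      obtain ⟨⟨⟨-, hev'⟩, hBu'⟩, hB12'⟩ := hB2'
      simp only [Prod.mk.injEq] at heq
      rcases hev with ⟨h', -⟩ | ⟨-, hsum⟩
      · exact absurd h' hB12
      rcases hev' with ⟨h', -⟩ | ⟨-, hsum'⟩
      · exact absurd h' hB12'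
      have e1 : ((B.2.2 : ℕ) : ZMod n) = ((B'.2.2 : ℕ) : ZMod n) := by
        rw [hBu, heq.1, heq.2] at hsum
        rw [hBu'] at hsum'
        exact add_left_cancel (hsum.symm.trans hsum')
      have e2 := slot_inj hkn _ _ e1
      exact Prod.ext (Prod.ext (hBu.trans hBu'.symm) heq.2) (Prod.ext heq.1 e2)
  have hd := (deg_split A U u hu).trans (hdeg u hu)
  rw [hsplit, hs1, hs2]
  set d1 := (Uᶜ.filter (fun j => Rel A u j)).card
  set d2 := (U.filter (fun j => j ≠ u ∧ Rel A u j)).card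
  have hc1' : ((F.filter (fun B => B.1 = B.2)).card : ℝ) ≤ d1 := by exact_mod_cast hc1
  have hc2' : ((F.filter (fun B => ¬ B.1 = B.2)).card : ℝ) ≤ d2 * U.card := by exact_mod_cast hc2
  have hd' : (d1 : ℝ) + d2 ≤ Δ := by exact_mod_cast hd
  calc ((F.filter (fun B => B.1 = B.2)).card : ℝ) * (1 / (U.card : ℝ)) +
        ((F.filter (fun B => ¬ B.1 = B.2)).card : ℝ) * (1 / ((U.card : ℝ) * ((U.card : ℝ) - 1)))
      ≤ d1 * (1 / ((U.card : ℝ) - 1)) +
        (d2 * U.card) * (1 / ((U.card : ℝ) * ((U.card : ℝ) - 1))) := by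
        gcongr
        linarith
    _ = (d1 + d2) / ((U.card : ℝ) - 1) := by
        field_simp
    _ ≤ Δ / ((U.card : ℝ) - 1) := by gcongr

open scoped Classical in
/-- Column sums. -/
theorem col_sum (hkn : k ≤ n) (A : Fin k → ZMod n) (U : Finset (Fin k))
    (τ₀ : Equiv.Perm (Fin k)) (Δ E : ℕ) (hdeg : ∀ u ∈ U, deg A u ≤ Δ)
    (hE : (U.filter (fun u => ∃ j, j ∉ U ∧ Rel A u j)).card ≤ E) (hM : 2 ≤ U.card)
    (h : Fin k) :
    ∑ B ∈ (evs A U τ₀).filter (fun B => B.1.2 = h), prob U.card B ≤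
      ((E : ℝ) + Δ) / ((U.card : ℝ) - 1) := by
  have h2 : (2 : ℝ) ≤ U.card := by exact_mod_cast hM
  have h1 : (0 : ℝ) < (U.card : ℝ) - 1 := by linarith
  set F := (evs A U τ₀).filter (fun B => B.1.2 = h) with hF
  have hsplit : ∑ B ∈ F, prob U.card B =
      ∑ B ∈ F.filter (fun B => B.1 = B.2), prob U.card B +
      ∑ B ∈ F.filter (fun B => ¬ B.1 = B.2), prob U.card B :=
    (sum_filter_add_sum_filter_not _ _ _).symm
  have hs1 : ∑ B ∈ F.filter (fun B => B.1 = B.2), prob U.card B =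
      (F.filter (fun B => B.1 = B.2)).card * (1 / (U.card : ℝ)) := by
    rw [← nsmul_eq_mul, ← sum_const]
    apply sum_congr rfl
    intro B hB
    unfold prob
    rw [if_pos (mem_filter.mp hB).2]
  have hs2 : ∑ B ∈ F.filter (fun B => ¬ B.1 = B.2), prob U.card B =
      (F.filter (fun B => ¬ B.1 = B.2)).card * (1 / ((U.card : ℝ) * ((U.card : ℝ) - 1))) := by
    rw [← nsmul_eq_mul, ← sum_const]
    apply sum_congr rfl
    intro B hB
    unfold prob
    rw [if_neg (mem_filter.mp hB).2]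
  have hc1 : (F.filter (fun B => B.1 = B.2)).card ≤ E := by
    refine le_trans ?_ hE
    apply card_le_card_of_injOn (fun B => B.1.1)
    · intro B hB
      have hB' : B ∈ F.filter (fun B => B.1 = B.2) := hB
      simp only [hF, evs, Adm, mem_filter, mem_univ, true_and] at hB'
      obtain ⟨⟨⟨hAdm, hev⟩, hBu⟩, hB12⟩ := hB'
      rw [mem_coe, mem_filter]
      rcases hev with ⟨-, j, hj, hj2⟩ | ⟨hne, -⟩
      · exact ⟨hAdm.1, j, hj, B.1.2, τ₀ j, hj2⟩
      · exact absurd (congrArg Prod.fst hB12) hne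
    · intro B hB B' hB' heq
      have hB2 : B ∈ F.filter (fun B => B.1 = B.2) := hB
      have hB2' : B' ∈ F.filter (fun B => B.1 = B.2) := hB'
      rw [hF, mem_filter, mem_filter] at hB2 hB2'
      have e3 : B.1 = B'.1 := Prod.ext heq (hB2.1.2.trans hB2'.1.2.symm)
      exact Prod.ext e3 (by rw [← hB2.2, ← hB2'.2, e3])
  have hc2 : (F.filter (fun B => ¬ B.1 = B.2)).card ≤ U.card * Δ := by
    have hc3 : (F.filter (fun B => ¬ B.1 = B.2)).card ≤
        (U.sigma (fun u => U.filter (fun j => j ≠ u ∧ Rel A u j))).card := by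
      apply card_le_card_of_injOn (fun B => (⟨B.1.1, B.2.1⟩ : (_ : Fin k) × Fin k))
      · intro B hB
        have hB' : B ∈ F.filter (fun B => ¬ B.1 = B.2) := hB
        simp only [hF, evs, Adm, mem_filter, mem_univ, true_and] at hB'
        obtain ⟨⟨⟨hAdm, hev⟩, hBu⟩, hB12⟩ := hB'
        rcases hev with ⟨heq, -⟩ | ⟨hne, hsum⟩
        · exact absurd heq hB12
        rw [mem_coe, mem_sigma, mem_filter]
        exact ⟨hAdm.1, hAdm.2.2.1, hne.symm, B.1.2, B.2.2, hsum⟩
      · intro B hB B' hB' heq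
        have hB2 : B ∈ F.filter (fun B => ¬ B.1 = B.2) := hB
        have hB2' : B' ∈ F.filter (fun B => ¬ B.1 = B.2) := hB'
        simp only [hF, evs, Adm, mem_filter, mem_univ, true_and] at hB2 hB2'
        obtain ⟨⟨⟨-, hev⟩, hBu⟩, hB12⟩ := hB2
        obtain ⟨⟨⟨-, hev'⟩, hBu'⟩, hB12'⟩ := hB2'
        simp only [Sigma.mk.injEq, heq_eq_eq] at heq
        rcases hev with ⟨h', -⟩ | ⟨-, hsum⟩
        · exact absurd h' hB12
        rcases hev' with ⟨h', -⟩ | ⟨-, hsum'⟩
        · exact absurd h' hB12'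
        have e1 : ((B.2.2 : ℕ) : ZMod n) = ((B'.2.2 : ℕ) : ZMod n) := by
          rw [hBu, heq.1, heq.2] at hsum
          rw [hBu'] at hsum'
          exact add_left_cancel (hsum.symm.trans hsum')
        have e2 := slot_inj hkn _ _ e1
        exact Prod.ext (Prod.ext heq.1 (hBu.trans hBu'.symm)) (Prod.ext heq.2 e2)
    refine hc3.trans ?_
    rw [card_sigma, ← smul_eq_mul, ← sum_const]
    apply sum_le_sum
    intro u hu
    have := (deg_split A U u hu).trans (hdeg u hu)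
    omega
  rw [hsplit, hs1, hs2]
  have hc1' : ((F.filter (fun B => B.1 = B.2)).card : ℝ) ≤ E := by exact_mod_cast hc1
  have hc2' : ((F.filter (fun B => ¬ B.1 = B.2)).card : ℝ) ≤ U.card * Δ := by exact_mod_cast hc2
  calc ((F.filter (fun B => B.1 = B.2)).card : ℝ) * (1 / (U.card : ℝ)) +
        ((F.filter (fun B => ¬ B.1 = B.2)).card : ℝ) * (1 / ((U.card : ℝ) * ((U.card : ℝ) - 1)))
      ≤ E * (1 / ((U.card : ℝ) - 1)) +
        (U.card * Δ) * (1 / ((U.card : ℝ) * ((U.card : ℝ) - 1))) := by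
        gcongr
        linarith
    _ = (E + Δ) / ((U.card : ℝ) - 1) := by
        field_simp

open scoped Classical in
/-- The neighbourhood sums are at most `1/4`. -/
theorem adj_sum (hkn : k ≤ n) (A : Fin k → ZMod n) (U : Finset (Fin k))
    (τ₀ : Equiv.Perm (Fin k)) (Δ E : ℕ) (hdeg : ∀ u ∈ U, deg A u ≤ Δ)
    (hE : (U.filter (fun u => ∃ j, j ∉ U ∧ Rel A u j)).card ≤ E) (hM2 : 2 ≤ U.card)
    (hM : 32 * Δ + 16 * E + 1 ≤ U.card) (B : Ev k) :
    ∑ B' ∈ (evs A U τ₀).filter (adj B), prob U.card B' ≤ 1 / 4 := by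
  have h2 : (2 : ℝ) ≤ U.card := by exact_mod_cast hM2
  have h1 : (0 : ℝ) < (U.card : ℝ) - 1 := by linarith
  have hp : ∀ B' ∈ evs A U τ₀, 0 ≤ prob U.card B' := fun B' _ => prob_nonneg _ hM2 B'
  obtain ⟨P, hP⟩ : ∃ P : Fin k × Fin k → Prop, P =
      fun q => q.1 = B.1.1 ∨ q.1 = B.2.1 ∨ q.2 = B.1.2 ∨ q.2 = B.2.2 := ⟨_, rfl⟩
  have e1 : ∑ B' ∈ (evs A U τ₀).filter (adj B), prob U.card B' ≤
      ∑ B' ∈ (evs A U τ₀).filter (fun B' => P B'.1), prob U.card B' +
      ∑ B' ∈ (evs A U τ₀).filter (fun B' => P B'.2), prob U.card B' :=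
    sum_filter_or_le (evs A U τ₀) (prob U.card) hp (adj B) (fun B' => P B'.1)
      (fun B' => P B'.2) (fun _ h => by rw [hP]; exact h)
  rw [sum_snd A U τ₀ U.card P] at e1
  have e2 : ∑ B' ∈ (evs A U τ₀).filter (fun B' => P B'.1), prob U.card B' ≤
      (Δ : ℝ) / ((U.card : ℝ) - 1) + ((Δ : ℝ) / ((U.card : ℝ) - 1) +
        (((E : ℝ) + Δ) / ((U.card : ℝ) - 1) + ((E : ℝ) + Δ) / ((U.card : ℝ) - 1))) := by
    refine (sum_filter_or_le (evs A U τ₀) (prob U.card) hp _ (fun B' => B'.1.1 = B.1.1)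
      (fun B' => B'.1.1 = B.2.1 ∨ B'.1.2 = B.1.2 ∨ B'.1.2 = B.2.2)
      (fun _ h => by rw [hP] at h; exact h)).trans ?_
    refine add_le_add (row_sum hkn A U τ₀ Δ hdeg hM2 _) ?_
    refine (sum_filter_or_le (evs A U τ₀) (prob U.card) hp _ (fun B' => B'.1.1 = B.2.1)
      (fun B' => B'.1.2 = B.1.2 ∨ B'.1.2 = B.2.2) (fun _ h => h)).trans ?_
    refine add_le_add (row_sum hkn A U τ₀ Δ hdeg hM2 _) ?_
    refine (sum_filter_or_le (evs A U τ₀) (prob U.card) hp _ (fun B' => B'.1.2 = B.1.2)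
      (fun B' => B'.1.2 = B.2.2) (fun _ h => h)).trans ?_
    exact add_le_add (col_sum hkn A U τ₀ Δ E hdeg hE hM2 _) (col_sum hkn A U τ₀ Δ E hdeg hE hM2 _)
  have e3 : (32 : ℝ) * Δ + 16 * E + 1 ≤ U.card := by exact_mod_cast hM
  have e4 : 2 * ((Δ : ℝ) / ((U.card : ℝ) - 1) + ((Δ : ℝ) / ((U.card : ℝ) - 1) +
        (((E : ℝ) + Δ) / ((U.card : ℝ) - 1) + ((E : ℝ) + Δ) / ((U.card : ℝ) - 1)))) ≤ 1 / 4 := by
    rw [← add_div, ← add_div, ← add_div, ← mul_div_assoc, div_le_iff₀ h1]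
    linarith
  linarith

open scoped Classical in
/-- The bound in one class. -/
theorem colls_cls (hkn : k ≤ n) (A : Fin k → ZMod n) (U : Finset (Fin k)) (y : Fin k)
    (hy : y ∈ U) (τ₀ : Equiv.Perm (Fin k)) (Δ E : ℕ) (hdeg : ∀ u ∈ U, deg A u ≤ Δ)
    (hE : (U.filter (fun u => ∃ j, j ∉ U ∧ Rel A u j)).card ≤ E) (hM2 : 2 ≤ U.card)
    (hM : 32 * Δ + 16 * E + 1 ≤ U.card) :
    ((colls A y ∩ cls U τ₀).card : ℝ) ≤
      2 * ((Δ : ℝ) / ((U.card : ℝ) - 1)) * (ghosts A y ∩ cls U τ₀).card := by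
  have h2 : (2 : ℝ) ≤ U.card := by exact_mod_cast hM2
  have h1 : (0 : ℝ) < (U.card : ℝ) - 1 := by linarith
  by_cases hD : ∀ i j, i ∉ U → j ∉ U →
      A i + ((τ₀ i : ℕ) : ZMod n) = A j + ((τ₀ j : ℕ) : ZMod n) → i = j
  swap
  · have hempty : colls A y ∩ cls U τ₀ = ∅ := by
      rw [eq_empty_iff_forall_notMem]
      intro τ hτ
      apply hD
      intro i j hi hj hij
      simp only [colls, ghosts, cls, mem_inter, mem_filter, mem_univ, true_and] at hτ
      obtain ⟨⟨hg, -⟩, hc⟩ := hτ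
      apply hg i j
      · rintro rfl; exact hi hy
      · rintro rfl; exact hj hy
      · rw [hc i hi, hc j hj, hij]
    rw [hempty, card_empty, Nat.cast_zero]
    positivity
  set S := (evs A U τ₀).filter (fun B => B.1.1 ≠ y ∧ B.2.1 ≠ y) with hS
  have hSev : S ⊆ evs A U τ₀ := filter_subset _ _
  have hsw := cls_swappable U τ₀
  have hcard := card_image_perm U τ₀
  have hdep : ∀ B ∈ evs A U τ₀, ∀ S ⊆ evs A U τ₀, (∀ B' ∈ S, ¬ adj B B') →
      ((hit (cls U τ₀) holds B S).card : ℝ) ≤ prob U.card B * (avoid (cls U τ₀) holds S).card := by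
    intro B hB T _ hT
    have h := neg_dep (cls U τ₀) U (U.image τ₀) hsw (by rw [hcard]; exact hM2) B
      (by simp only [evs, mem_filter] at hB; exact hB.2.1) T hT
    rw [hcard] at h
    exact h
  have hlll := lll (cls U τ₀) holds (evs A U τ₀) adj (prob U.card)
    (fun B' _ => prob_nonneg _ hM2 B') hdep
    (fun B _ => adj_sum hkn A U τ₀ Δ E hdeg hE hM2 hM B)
  have hav : avoid (cls U τ₀) holds S = ghosts A y ∩ cls U τ₀ := by
    ext τ
    simp only [avoid, mem_filter, mem_inter, ghosts, mem_univ, true_and]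
    constructor
    · rintro ⟨hc, hav⟩
      refine ⟨?_, hc⟩
      intro i j hi hj hij
      by_contra hne
      have hc' : ∀ j, j ∉ U → τ j = τ₀ j := by simpa [cls] using hc
      by_cases hiU : i ∈ U <;> by_cases hjU : j ∈ U
      · apply hav ((i, τ i), (j, τ j)) _ ⟨rfl, rfl⟩
        simp only [hS, evs, Adm, mem_filter, mem_univ, true_and]
        exact ⟨⟨⟨hiU, hsw.maps τ hc i hiU, hjU, hsw.maps τ hc j hjU,
          Or.inr ⟨hne, fun h => hne (τ.injective h)⟩⟩, Or.inr ⟨hne, hij⟩⟩, hi, hj⟩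
      · apply hav ((i, τ i), (i, τ i)) _ ⟨rfl, rfl⟩
        simp only [hS, evs, Adm, mem_filter, mem_univ, true_and]
        exact ⟨⟨⟨hiU, hsw.maps τ hc i hiU, hiU, hsw.maps τ hc i hiU, Or.inl trivial⟩,
          Or.inl ⟨j, hjU, by rw [hij, hc' j hjU]⟩⟩, hi, hi⟩
      · apply hav ((j, τ j), (j, τ j)) _ ⟨rfl, rfl⟩
        simp only [hS, evs, Adm, mem_filter, mem_univ, true_and]
        exact ⟨⟨⟨hjU, hsw.maps τ hc j hjU, hjU, hsw.maps τ hc j hjU, Or.inl trivial⟩,
          Or.inl ⟨i, hiU, by rw [← hij, hc' i hiU]⟩⟩, hj, hj⟩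
      · apply hne
        apply hD i j hiU hjU
        rw [← hc' i hiU, ← hc' j hjU, hij]
    · rintro ⟨hg, hc⟩
      refine ⟨hc, ?_⟩
      intro B hB hBh
      have hc' : ∀ j, j ∉ U → τ j = τ₀ j := by simpa [cls] using hc
      simp only [hS, evs, Adm, mem_filter, mem_univ, true_and] at hB
      obtain ⟨⟨hAdm, hev⟩, hy1, hy2⟩ := hB
      obtain ⟨hh1, hh2⟩ := hBh
      rcases hev with ⟨heq, j, hj, hj2⟩ | ⟨hne, hsum⟩
      · rw [← hh1, ← hc' j hj] at hj2
        have hjy : j ≠ y := by rintro rfl; exact hj hy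
        have := hg _ _ hy1 hjy hj2
        rw [← this] at hj
        exact hj hAdm.1
      · rw [← hh1, ← hh2] at hsum
        exact hne (hg _ _ hy1 hy2 hsum)
  have hcov : colls A y ∩ cls U τ₀ ⊆
      ((evs A U τ₀).filter (fun B => B.1.1 = y)).biUnion (fun B => hit (cls U τ₀) holds B S) := by
    intro τ hτ
    rw [mem_inter] at hτ
    obtain ⟨hcoll, hc⟩ := hτ
    have hgh : τ ∈ ghosts A y := by
      simp only [colls, mem_filter] at hcoll
      exact hcoll.1
    have havτ : τ ∈ avoid (cls U τ₀) holds S := by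
      rw [hav, mem_inter]
      exact ⟨hgh, hc⟩
    have hc' : ∀ j, j ∉ U → τ j = τ₀ j := by simpa [cls] using hc
    simp only [colls, mem_filter] at hcoll
    obtain ⟨-, j, hjy, hj⟩ := hcoll
    rw [mem_biUnion]
    by_cases hjU : j ∈ U
    · refine ⟨((y, τ y), (j, τ j)), ?_, ?_⟩
      · simp only [evs, Adm, mem_filter, mem_univ, true_and]
        exact ⟨⟨⟨hy, hsw.maps τ hc y hy, hjU, hsw.maps τ hc j hjU,
          Or.inr ⟨hjy.symm, fun h => hjy (τ.injective h).symm⟩⟩, Or.inr ⟨hjy.symm, hj⟩⟩, trivial⟩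
      · simp only [hit, mem_filter, holds]
        exact ⟨havτ, trivial, trivial⟩
    · refine ⟨((y, τ y), (y, τ y)), ?_, ?_⟩
      · simp only [evs, Adm, mem_filter, mem_univ, true_and]
        exact ⟨⟨⟨hy, hsw.maps τ hc y hy, hy, hsw.maps τ hc y hy, Or.inl trivial⟩,
          Or.inl ⟨j, hjU, by rw [hj, hc' j hjU]⟩⟩, trivial⟩
      · simp only [hit, mem_filter, holds]
        exact ⟨havτ, trivial, trivial⟩
  have hb1 : ((colls A y ∩ cls U τ₀).card : ℝ) ≤
      ∑ B ∈ (evs A U τ₀).filter (fun B => B.1.1 = y), ((hit (cls U τ₀) holds B S).card : ℝ) := by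
    have := (card_le_card hcov).trans card_biUnion_le
    exact_mod_cast this
  calc ((colls A y ∩ cls U τ₀).card : ℝ)
      ≤ ∑ B ∈ (evs A U τ₀).filter (fun B => B.1.1 = y), ((hit (cls U τ₀) holds B S).card : ℝ) := hb1
    _ ≤ ∑ B ∈ (evs A U τ₀).filter (fun B => B.1.1 = y),
          2 * prob U.card B * (avoid (cls U τ₀) holds S).card := by
        apply sum_le_sum
        intro B hB
        exact hlll S hSev B (mem_filter.mp hB).1
    _ = 2 * (∑ B ∈ (evs A U τ₀).filter (fun B => B.1.1 = y), prob U.card B) *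
          (avoid (cls U τ₀) holds S).card := by
        rw [mul_sum, sum_mul]
    _ ≤ 2 * ((Δ : ℝ) / ((U.card : ℝ) - 1)) * (avoid (cls U τ₀) holds S).card := by
        gcongr
        exact row_sum hkn A U τ₀ Δ hdeg hM2 y
    _ = _ := by rw [hav]

open scoped Classical in
/-- The collision probability of `y`. -/
theorem colls_le (hkn : k ≤ n) (A : Fin k → ZMod n) (U : Finset (Fin k)) (y : Fin k)
    (hy : y ∈ U) (Δ E : ℕ) (hdeg : ∀ u ∈ U, deg A u ≤ Δ)
    (hE : (U.filter (fun u => ∃ j, j ∉ U ∧ Rel A u j)).card ≤ E)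
    (hM : 32 * Δ + 16 * E + 1 ≤ U.card) :
    (colls A y).card * (U.card - 1) ≤ 2 * Δ * (ghosts A y).card := by
  rcases Nat.lt_or_ge U.card 2 with hlt | hM2
  · have : U.card - 1 = 0 := by omega
    rw [this, mul_zero]
    exact Nat.zero_le _
  have h2 : (2 : ℝ) ≤ U.card := by exact_mod_cast hM2
  have h1 : (0 : ℝ) < (U.card : ℝ) - 1 := by linarith
  set f : Equiv.Perm (Fin k) → (Fin k → Option (Fin k)) :=
    fun τ j => if j ∈ U then none else some (τ j) with hf
  have hfib : ∀ τ₀ τ, f τ = f τ₀ ↔ τ ∈ cls U τ₀ := by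
    intro τ₀ τ
    simp only [cls, mem_filter, mem_univ, true_and]
    constructor
    · intro heq j hj
      have := congrFun heq j
      simp only [hf, if_neg hj, Option.some.injEq] at this
      exact this
    · intro h
      funext j
      by_cases hj : j ∈ U
      · simp only [hf, if_pos hj]
      · simp only [hf, if_neg hj, h j hj]
  have e1 : (colls A y).card = ∑ c : Fin k → Option (Fin k),
      ((colls A y).filter (fun τ => f τ = c)).card :=
    card_eq_sum_card_fiberwise (fun _ _ => mem_coe.mpr (mem_univ _))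
  have e2 : (ghosts A y).card = ∑ c : Fin k → Option (Fin k),
      ((ghosts A y).filter (fun τ => f τ = c)).card :=
    card_eq_sum_card_fiberwise (fun _ _ => mem_coe.mpr (mem_univ _))
  have key : ((colls A y).card : ℝ) ≤ 2 * ((Δ : ℝ) / ((U.card : ℝ) - 1)) * (ghosts A y).card := by
    rw [e1, e2]
    push_cast
    rw [mul_sum]
    apply sum_le_sum
    intro c _
    by_cases hc : ∃ τ₀, f τ₀ = c
    · obtain ⟨τ₀, rfl⟩ := hc
      have e3 : (colls A y).filter (fun τ => f τ = f τ₀) = colls A y ∩ cls U τ₀ := by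
        ext τ
        rw [mem_filter, mem_inter, hfib]
      have e4 : (ghosts A y).filter (fun τ => f τ = f τ₀) = ghosts A y ∩ cls U τ₀ := by
        ext τ
        rw [mem_filter, mem_inter, hfib]
      rw [e3, e4]
      exact colls_cls hkn A U y hy τ₀ Δ E hdeg hE hM2 hM
    · push Not at hc
      rw [filter_eq_empty_iff.mpr (fun τ _ => hc τ), card_empty, Nat.cast_zero]
      positivity
  have h3 : (((colls A y).card * (U.card - 1) : ℕ) : ℝ) ≤ ((2 * Δ * (ghosts A y).card : ℕ) : ℝ) := by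
    rw [Nat.cast_mul, Nat.cast_sub (by omega)]
    push_cast
    calc ((colls A y).card : ℝ) * ((U.card : ℝ) - 1)
        ≤ (2 * ((Δ : ℝ) / ((U.card : ℝ) - 1)) * (ghosts A y).card) * ((U.card : ℝ) - 1) := by
          gcongr
      _ = 2 * Δ * (ghosts A y).card := by
          field_simp
  exact_mod_cast h3

end

end Pool.Agent.KSN
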