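import Pool.Agent.KSN.Ghost
import Pool.Agent.KSN.Coll

/-!
# Emptying one window

Stated with the facts on windows as hypotheses.
-/

set_option autoImplicit false

open Finset

namespace Pool.Agent.KSN

variable {n k : ℕ}

open scoped Classical in
theorem cnt_sum (A : Fin k → ZMod n) (W : Finset ℕ) :
    ∑ i ∈ W, cnt A i = (univ.filter (fun j : Fin k => idx k (A j) ∈ W)).card := by
  have h : (univ.filter (fun j : Fin k => idx k (A j) ∈ W)).card =
      ∑ i ∈ W, ((univ.filter (fun j : Fin k => idx k (A j) ∈ W)).filter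
        (fun j => idx k (A j) = i)).card :=
    card_eq_sum_card_fiberwise (fun j hj => by
      have hj' : j ∈ univ.filter (fun j : Fin k => idx k (A j) ∈ W) := hj
      rw [mem_filter] at hj'
      exact hj'.2)
  rw [h]
  apply sum_congr rfl
  intro i hi
  unfold cnt
  congr 1
  ext j
  simp only [mem_filter, mem_univ, true_and]
  constructor
  · intro h
    exact ⟨by rw [h]; exact hi, h⟩
  · exact fun h => h.2

theorem cnt_sum_le (A : Fin k → ZMod n) (W : Finset ℕ) : ∑ i ∈ W, cnt A i ≤ k := by
  classical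
  rw [cnt_sum]
  refine (card_le_univ _).trans ?_
  rw [Fintype.card_fin]

/-- One step: an element of the window `i₀` can be moved into `Z`. -/
theorem one_move (hk : 0 < k) (hkn : k ≤ n) (A A' : Fin k → ZMod n) (W : Finset ℕ) (L p i₀ : ℕ)
    (Z : Finset (ZMod n)) (M : ℕ) (hMdef : M = ∑ i ∈ W, cnt A i)
    (hnear : ∀ (x y : ZMod n) (s t : Fin k), x + ((s : ℕ) : ZMod n) = y + ((t : ℕ) : ZMod n) →
      idx k x ∈ W → idx k y + 1 = idx k x ∨ idx k y = idx k x ∨ idx k y = idx k x + 1)
    (hZcard : Z.card ≤ 3 * k)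
    (hZ : ∀ x, x ∈ Z ↔ ∃ z : ZMod n, idx k z = p ∧
        ∃ s t : Fin k, x = z + ((s : ℕ) : ZMod n) - ((t : ℕ) : ZMod n))
    (hWD : ∀ i ∈ W, 20000 * (cnt A (i - 1) + cnt A i + cnt A (i + 1)) ≤ M)
    (hWE : 50 * (∑ i ∈ W.filter (fun i => i - 1 ∉ W ∨ i + 1 ∉ W), cnt A i) ≤ M)
    (hW1 : ∀ i ∈ W, 1 ≤ i)
    (hp : k < 1000 * cnt A p) (hi₀ : i₀ ∈ W)
    (hpos : 1 ≤ cnt A i₀)
    (hinv : ∀ j, A' j = A j ∨ (idx k (A j) = i₀ ∧ A' j ∈ Z))
    (y : Fin k) (hy : idx k (A' y) = i₀) :
    (∀ x ∈ Z, idx k x ∉ W) ∧ ∃ x ∈ Z, Phi (Function.update A' y x) ≤ Phi A' := by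
  classical
  have hMk : M ≤ k := by rw [hMdef]; exact cnt_sum_le A W
  have hpi : ∀ i ∈ W, p + 1 ≠ i ∧ p ≠ i ∧ p ≠ i + 1 := by
    intro i hi
    have h1 := hWD i hi
    refine ⟨?_, ?_, ?_⟩
    · rintro rfl
      rw [Nat.add_sub_cancel] at h1
      omega
    · rintro rfl
      omega
    · rintro rfl
      omega
  have hZW : ∀ x ∈ Z, idx k x ∉ W := by
    intro x hx hxW
    rw [hZ] at hx
    obtain ⟨z, hz, s, t, hst⟩ := hx
    have h1 : x + ((t : ℕ) : ZMod n) = z + ((s : ℕ) : ZMod n) := by rw [hst]; ring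
    have h2 := hnear x z t s h1 hxW
    obtain ⟨h3, h4, h5⟩ := hpi _ hxW
    rw [hz] at h2
    omega
  refine ⟨hZW, ?_⟩
  -- the current elements in the windows of `W`
  set U : Finset (Fin k) := univ.filter (fun j => idx k (A' j) ∈ W) with hU
  have hUeq : ∀ j ∈ U, A' j = A j := by
    intro j hj
    rw [hU, mem_filter] at hj
    rcases hinv j with h | h
    · exact h
    · exact absurd hj.2 (hZW _ h.2)
  have hyU : y ∈ U := by
    rw [hU, mem_filter]
    exact ⟨mem_univ _, by rw [hy]; exact hi₀⟩
  have hyA : idx k (A y) = i₀ := by rw [← hUeq y hyU]; exact hy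
  have hMU : M ≤ U.card + cnt A i₀ := by
    rw [hMdef, cnt_sum]
    have hsub : univ.filter (fun j : Fin k => idx k (A j) ∈ W) ⊆
        U ∪ univ.filter (fun j : Fin k => idx k (A j) = i₀) := by
      intro j hj
      rw [mem_filter] at hj
      rw [mem_union]
      rcases hinv j with h | h
      · left
        rw [hU, mem_filter, h]
        exact hj
      · right
        rw [mem_filter]
        exact ⟨mem_univ _, h.1⟩
    refine (card_le_card hsub).trans ((card_union_le _ _).trans ?_)
    rfl
  have hc0 := hWD i₀ hi₀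
  set Δ := M / 10000 with hΔ
  set E := ∑ i ∈ W.filter (fun i => i - 1 ∉ W ∨ i + 1 ∉ W), cnt A i with hE
  have hdeg : ∀ u ∈ U, deg A' u ≤ Δ := by
    intro u hu
    have huA := hUeq u hu
    have huW : idx k (A u) ∈ W := by
      rw [← huA]
      rw [hU, mem_filter] at hu
      exact hu.2
    set i := idx k (A u) with hi
    have hi1 := hW1 i huW
    have h1 := hWD i huW
    have h2 : deg A' u ≤ (cnt A (i - 1) + cnt A i + cnt A (i + 1)) + cnt A i₀ := by
      unfold deg
      have hsub : univ.filter (fun j : Fin k => j ≠ u ∧ Rel A' u j) ⊆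
          ((univ.filter (fun j : Fin k => idx k (A j) = i - 1) ∪
            univ.filter (fun j : Fin k => idx k (A j) = i)) ∪
            univ.filter (fun j : Fin k => idx k (A j) = i + 1)) ∪
            univ.filter (fun j : Fin k => idx k (A j) = i₀) := by
        intro j hj
        rw [mem_filter] at hj
        obtain ⟨-, -, s, t, hst⟩ := hj
        simp only [mem_union, mem_filter, mem_univ, true_and]
        rcases hinv j with h | h
        · left
          rw [huA, h] at hst
          have h3 := hnear (A u) (A j) s t hst huW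
          rw [← hi] at h3
          omega
        · right
          exact h.1
      refine (card_le_card hsub).trans ((card_union_le _ _).trans ?_)
      refine add_le_add ((card_union_le _ _).trans ?_) le_rfl
      exact add_le_add (card_union_le _ _) le_rfl
    have h3 : cnt A i₀ ≤ cnt A (i₀ - 1) + cnt A i₀ + cnt A (i₀ + 1) := by omega
    omega
  have hEle : (U.filter (fun u => ∃ j, j ∉ U ∧ Rel A' u j)).card ≤ E := by
    rw [hE, cnt_sum]
    apply card_le_card
    intro u hu
    rw [mem_filter] at hu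
    obtain ⟨huU, j, hj, s, t, hst⟩ := hu
    have huA := hUeq u huU
    have huW' : idx k (A' u) ∈ W := by
      rw [hU, mem_filter] at huU
      exact huU.2
    have huW : idx k (A u) ∈ W := by rw [← huA]; exact huW'
    have hjW : idx k (A' j) ∉ W := by
      intro h
      apply hj
      rw [hU, mem_filter]
      exact ⟨mem_univ _, h⟩
    have h3 := hnear (A' u) (A' j) s t hst huW'
    rw [mem_filter, mem_filter]
    refine ⟨mem_univ _, huW, ?_⟩
    rw [huA] at h3
    rcases h3 with h3 | h3 | h3
    · left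
      have h4 : idx k (A u) - 1 = idx k (A' j) := by omega
      rw [h4]
      exact hjW
    · rw [h3] at hjW
      exact absurd huW hjW
    · right
      rw [← h3]
      exact hjW
  have hM20 : 20000 ≤ M := by omega
  have hMcond : 32 * Δ + 16 * E + 1 ≤ U.card := by omega
  have hcoll := colls_le hkn A' U y hyU Δ E hdeg hEle hMcond
  have hU23 : 2 * M ≤ 3 * (U.card - 1) := by omega
  have hsmall : 10000 * (colls A' y).card ≤ 3 * (ghosts A' y).card := by
    have h1 : 10000 * Δ ≤ M := by omega
    have h2 : (colls A' y).card * (2 * M) ≤ (colls A' y).card * (3 * (U.card - 1)) :=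
      Nat.mul_le_mul_left _ hU23
    have h3 : M * (10000 * (colls A' y).card) ≤ M * (3 * (ghosts A' y).card) := by
      calc M * (10000 * (colls A' y).card) = 5000 * ((colls A' y).card * (2 * M)) := by ring
        _ ≤ 5000 * ((colls A' y).card * (3 * (U.card - 1))) := Nat.mul_le_mul_left _ h2
        _ = 15000 * ((colls A' y).card * (U.card - 1)) := by ring
        _ ≤ 15000 * (2 * Δ * (ghosts A' y).card) := Nat.mul_le_mul_left _ hcoll
        _ = 3 * (10000 * Δ) * (ghosts A' y).card := by ring
        _ ≤ 3 * M * (ghosts A' y).card := by gcongr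
        _ = M * (3 * (ghosts A' y).card) := by ring
    exact Nat.le_of_mul_le_mul_left h3 (by omega)
  -- the dense window
  set Q : Finset (Fin k) := univ.filter (fun j : Fin k => idx k (A j) = p) with hQ
  have hQcard : Q.card = cnt A p := rfl
  have hpi₀ := (hpi i₀ hi₀).2.1
  have hyQ : y ∉ Q := by
    intro h
    rw [hQ, mem_filter, hyA] at h
    exact hpi₀ h.2.symm
  have hQA : ∀ j ∈ Q, A' j = A j := by
    intro j hj
    rw [hQ, mem_filter] at hj
    rcases hinv j with h | h
    · exact h
    · rw [hj.2] at h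
      exact absurd h.1 hpi₀
  have hQZ : ∀ j ∈ Q, ∀ s t : Fin k,
      A' j + ((s : ℕ) : ZMod n) - ((t : ℕ) : ZMod n) ∈ Z := by
    intro j hj s t
    rw [hQA j hj, hZ]
    rw [hQ, mem_filter] at hj
    exact ⟨A j, hj.2, s, t, rfl⟩
  have hQne : Q.Nonempty := by
    rw [← card_pos, hQcard]
    omega
  have hZne : Z.Nonempty := by
    obtain ⟨j, hj⟩ := hQne
    exact ⟨_, hQZ j hj ⟨0, hk⟩ ⟨0, hk⟩⟩
  apply ghost_move A' y Z Q hyQ hQZ hZne
  rw [hQcard]
  have h1 : (colls A' y).card * Z.card ≤ (colls A' y).card * (3 * k) := Nat.mul_le_mul_left _ hZcard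
  refine h1.trans ?_
  have h2 : 10000 * ((colls A' y).card * (3 * k)) ≤ 10000 * (cnt A p * (ghosts A' y).card) := by
    calc 10000 * ((colls A' y).card * (3 * k)) = (10000 * (colls A' y).card) * (3 * k) := by ring
      _ ≤ (3 * (ghosts A' y).card) * (3 * (1000 * cnt A p)) := by
          gcongr
      _ = 9000 * (cnt A p * (ghosts A' y).card) := by ring
      _ ≤ 10000 * (cnt A p * (ghosts A' y).card) := by gcongr; norm_num
  exact Nat.le_of_mul_le_mul_left h2 (by norm_num)

/-- The window `i₀` can be emptied. -/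
theorem empty_window (hk : 0 < k) (hkn : k ≤ n) (A : Fin k → ZMod n) (W : Finset ℕ) (L p i₀ : ℕ)
    (Z : Finset (ZMod n)) (M : ℕ) (hMdef : M = ∑ i ∈ W, cnt A i)
    (hnear : ∀ (x y : ZMod n) (s t : Fin k), x + ((s : ℕ) : ZMod n) = y + ((t : ℕ) : ZMod n) →
      idx k x ∈ W → idx k y + 1 = idx k x ∨ idx k y = idx k x ∨ idx k y = idx k x + 1)
    (hZcard : Z.card ≤ 3 * k)
    (hZ : ∀ x, x ∈ Z ↔ ∃ z : ZMod n, idx k z = p ∧
        ∃ s t : Fin k, x = z + ((s : ℕ) : ZMod n) - ((t : ℕ) : ZMod n))
    (hWD : ∀ i ∈ W, 20000 * (cnt A (i - 1) + cnt A i + cnt A (i + 1)) ≤ M)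
    (hWE : 50 * (∑ i ∈ W.filter (fun i => i - 1 ∉ W ∨ i + 1 ∉ W), cnt A i) ≤ M)
    (hW1 : ∀ i ∈ W, 1 ≤ i)
    (hp : k < 1000 * cnt A p) (hi₀ : i₀ ∈ W)
    (hpos : 1 ≤ cnt A i₀) :
    ∃ A'' : Fin k → ZMod n, (∀ j, idx k (A'' j) ≠ i₀) ∧ Phi A'' ≤ Phi A := by
  classical
  have key : ∀ r : ℕ, ∀ A' : Fin k → ZMod n,
      (∀ j, A' j = A j ∨ (idx k (A j) = i₀ ∧ A' j ∈ Z)) → Phi A' ≤ Phi A → cnt A' i₀ ≤ r →
      ∃ A'' : Fin k → ZMod n, (∀ j, idx k (A'' j) ≠ i₀) ∧ Phi A'' ≤ Phi A := by
    intro r
    induction r with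
    | zero =>
      intro A' hinv hPhi hcnt
      refine ⟨A', ?_, hPhi⟩
      intro j hj
      have h1 : cnt A' i₀ = 0 := by omega
      unfold cnt at h1
      rw [card_eq_zero, filter_eq_empty_iff] at h1
      exact h1 (mem_univ j) hj
    | succ r IH =>
      intro A' hinv hPhi hcnt
      by_cases hall : ∀ j, idx k (A' j) ≠ i₀
      · exact ⟨A', hall, hPhi⟩
      push Not at hall
      obtain ⟨y, hy⟩ := hall
      obtain ⟨hZW, x, hx, hle⟩ := one_move hk hkn A A' W L p i₀ Z M hMdef hnear hZcard hZ hWD hWE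
        hW1 hp hi₀ hpos hinv y hy
      have hxi : idx k x ≠ i₀ := fun h => hZW x hx (by rw [h]; exact hi₀)
      apply IH (Function.update A' y x)
      · intro j
        by_cases hj : j = y
        · subst hj
          right
          rw [Function.update_self]
          refine ⟨?_, hx⟩
          rcases hinv j with h | h
          · rw [← h]; exact hy
          · exact h.1
        · rw [Function.update_of_ne hj]
          exact hinv j
      · exact hle.trans hPhi
      · have hlt : cnt (Function.update A' y x) i₀ < cnt A' i₀ := by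
          unfold cnt
          apply card_lt_card
          rw [Finset.ssubset_iff_of_subset]
          · refine ⟨y, ?_, ?_⟩
            · rw [mem_filter]
              exact ⟨mem_univ _, hy⟩
            · rw [mem_filter, Function.update_self]
              exact fun h => hxi h.2
          · intro j hj
            rw [mem_filter] at hj ⊢
            by_cases hjy : j = y
            · subst hjy
              exact ⟨mem_univ _, hy⟩
            · rw [Function.update_of_ne hjy] at hj
              exact hj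
        omega
  exact key (cnt A i₀) A (fun j => Or.inl rfl) le_rfl le_rfl

end Pool.Agent.KSN
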