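import Mathlib

/-!
# Distinct sums modulo `n`: basic definitions

Elements `j : Fin k` have positions `A j : ZMod n`; an assignment is a permutation `τ` of `Fin k`,
`τ j` is the slot of the element `j`, and the sum of `j` is `A j + τ j`.
-/

set_option autoImplicit false

open Finset

namespace Pool.Agent.KSN

/-- The assignment `τ` (element `j` in slot `τ j`) has pairwise distinct sums. -/
def Good {n k : ℕ} (A : Fin k → ZMod n) (τ : Equiv.Perm (Fin k)) : Prop :=
  Function.Injective (fun j : Fin k => A j + ((τ j : ℕ) : ZMod n))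

open scoped Classical in
/-- Number of assignments with distinct sums. -/
noncomputable def Phi {n k : ℕ} (A : Fin k → ZMod n) : ℕ :=
  (univ.filter (fun τ : Equiv.Perm (Fin k) => Good A τ)).card

/-- The elements `u` and `j` can have equal sums. -/
def Rel {n k : ℕ} (A : Fin k → ZMod n) (u j : Fin k) : Prop :=
  ∃ s t : Fin k, A u + ((s : ℕ) : ZMod n) = A j + ((t : ℕ) : ZMod n)

open scoped Classical in
/-- Number of elements which can have the same sum as `u`. -/
noncomputable def deg {n k : ℕ} (A : Fin k → ZMod n) (u : Fin k) : ℕ :=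
  (univ.filter (fun j : Fin k => j ≠ u ∧ Rel A u j)).card

/-- All sums except possibly that of `y` are pairwise distinct. -/
def GoodOff {n k : ℕ} (A : Fin k → ZMod n) (y : Fin k) (τ : Equiv.Perm (Fin k)) : Prop :=
  ∀ i j : Fin k, i ≠ y → j ≠ y →
    A i + ((τ i : ℕ) : ZMod n) = A j + ((τ j : ℕ) : ZMod n) → i = j

open scoped Classical in
/-- Assignments in which all sums except possibly that of `y` are distinct. -/
noncomputable def ghosts {n k : ℕ} (A : Fin k → ZMod n) (y : Fin k) :
    Finset (Equiv.Perm (Fin k)) :=
  univ.filter (fun τ : Equiv.Perm (Fin k) => GoodOff A y τ)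

open scoped Classical in
/-- Those assignments of `ghosts A y` in which the sum of `y` is the sum of another element. -/
noncomputable def colls {n k : ℕ} (A : Fin k → ZMod n) (y : Fin k) :
    Finset (Equiv.Perm (Fin k)) :=
  (ghosts A y).filter (fun τ : Equiv.Perm (Fin k) =>
    ∃ j : Fin k, j ≠ y ∧ A y + ((τ y : ℕ) : ZMod n) = A j + ((τ j : ℕ) : ZMod n))

/-- The window (of length `k`) of a residue. -/
def idx {n : ℕ} (k : ℕ) (x : ZMod n) : ℕ := x.val / k

open scoped Classical in
/-- Number of elements in the window `i`. -/
noncomputable def cnt {n k : ℕ} (A : Fin k → ZMod n) (i : ℕ) : ℕ :=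
  (univ.filter (fun j : Fin k => idx k (A j) = i)).card

end Pool.Agent.KSN
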