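import Pool.Agent.KSN.Windows
import Pool.Agent.Results.MP_31c4fb_co.SaturationValue

/-!
# A vector with few good assignments
-/

set_option autoImplicit false

open Finset

namespace Pool.Agent.KSN

theorem few (m k : ℕ) (hk : 13 ≤ k) :
    ∃ B : Fin k → ZMod m, 2 ^ (k / 2) * Phi B ≤ k.factorial := by
  have h1 := Pool.Agent.Results.MP_31c4fb_co.SaturationValue.result m k hk
  obtain ⟨B, hB⟩ := Nat.sInf_mem (Set.range_nonempty (fun a : Fin k → ZMod m =>
    {π : Equiv.Perm (Fin k) |
      Function.Injective (fun i : Fin k => a (π i) + (((i : ℕ)) : ZMod m))}.ncard))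
  refine ⟨B, ?_⟩
  have h2 : Phi B < (k / 2).factorial * ((k + 1) / 2).factorial := by
    rw [phi_eq]
    refine lt_of_le_of_lt (le_of_eq ?_) h1
    exact hB
  set r := k / 2 with hr
  have h3 : (k + 1) / 2 = k - r := by omega
  rw [h3] at h2
  have h4 : k.choose r * r.factorial * (k - r).factorial = k.factorial :=
    Nat.choose_mul_factorial_mul_factorial (by omega)
  have h5 : 2 ^ r ≤ k.choose r := by
    have h6 : (2 * r).choose r ≤ k.choose r := Nat.choose_le_choose r (by omega)
    refine le_trans ?_ h6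
    have h7 := Nat.four_pow_lt_mul_centralBinom r (by omega)
    rw [Nat.centralBinom_eq_two_mul_choose] at h7
    have h8 : r < 2 ^ r := Nat.lt_two_pow_self
    have h9 : 2 ^ r * 2 ^ r ≤ 2 ^ r * (2 * r).choose r := by
      calc 2 ^ r * 2 ^ r = 4 ^ r := by rw [← mul_pow]; norm_num
        _ ≤ r * (2 * r).choose r := h7.le
        _ ≤ 2 ^ r * (2 * r).choose r := Nat.mul_le_mul h8.le le_rfl
    exact Nat.le_of_mul_le_mul_left h9 (by positivity)
  calc 2 ^ r * Phi B ≤ 2 ^ r * (r.factorial * (k - r).factorial) := Nat.mul_le_mul le_rfl h2.le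
    _ ≤ k.choose r * (r.factorial * (k - r).factorial) := Nat.mul_le_mul h5 le_rfl
    _ = k.factorial := by rw [← mul_assoc]; exact h4

end Pool.Agent.KSN
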