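import Pool.Agent.KSN.Defs

/-!
# Moving one element to a better place
-/

set_option autoImplicit false

open Finset

namespace Pool.Agent.KSN

variable {n k : ℕ}

theorem phi_add_colls (A : Fin k → ZMod n) (y : Fin k) :
    Phi A + (colls A y).card = (ghosts A y).card := by
  classical
  have h1 : Phi A = ((ghosts A y).filter (fun τ => ¬ ∃ j : Fin k, j ≠ y ∧
      A y + ((τ y : ℕ) : ZMod n) = A j + ((τ j : ℕ) : ZMod n))).card := by
    unfold Phi
    congr 1
    ext τ
    simp only [mem_filter, mem_univ, true_and, ghosts]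
    constructor
    · intro hG
      refine ⟨fun i j _ _ hij => hG hij, ?_⟩
      rintro ⟨j, hj, hjy⟩
      exact hj (hG hjy).symm
    · rintro ⟨hO, hno⟩ i j hij
      by_contra hne
      by_cases hi : i = y
      · subst hi
        exact hno ⟨j, fun h => hne h.symm, hij⟩
      · by_cases hj : j = y
        · subst hj
          exact hno ⟨i, hi, hij.symm⟩
        · exact hne (hO i j hi hj hij)
  rw [h1, colls, add_comm]
  exact card_filter_add_card_filter_not _

theorem ghosts_update (A : Fin k → ZMod n) (y : Fin k) (x : ZMod n) :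
    ghosts (Function.update A y x) y = ghosts A y := by
  classical
  unfold ghosts
  congr 1
  funext τ
  apply propext
  constructor
  · intro h i j hi hj hij
    apply h i j hi hj
    rw [Function.update_of_ne hi, Function.update_of_ne hj]
    exact hij
  · intro h i j hi hj hij
    rw [Function.update_of_ne hi, Function.update_of_ne hj] at hij
    exact h i j hi hj hij

theorem sum_colls (A : Fin k → ZMod n) (y : Fin k) (Z : Finset (ZMod n)) (Q : Finset (Fin k))
    (hy : y ∉ Q)
    (hQ : ∀ j ∈ Q, ∀ s t : Fin k, A j + ((s : ℕ) : ZMod n) - ((t : ℕ) : ZMod n) ∈ Z) :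
    Q.card * (ghosts A y).card ≤ ∑ x ∈ Z, (colls (Function.update A y x) y).card := by
  classical
  have h1 : ∀ x, (colls (Function.update A y x) y).card =
      ∑ τ ∈ ghosts A y, if ∃ j : Fin k, j ≠ y ∧
        x + ((τ y : ℕ) : ZMod n) = A j + ((τ j : ℕ) : ZMod n) then 1 else 0 := by
    intro x
    rw [← card_filter, colls, ghosts_update]
    congr 1
    apply filter_congr
    intro τ _
    constructor
    · rintro ⟨j, hj, h⟩
      rw [Function.update_self, Function.update_of_ne hj] at h
      exact ⟨j, hj, h⟩
    · rintro ⟨j, hj, h⟩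
      refine ⟨j, hj, ?_⟩
      rw [Function.update_self, Function.update_of_ne hj]
      exact h
  rw [sum_congr rfl (fun x _ => h1 x), sum_comm, mul_comm, ← smul_eq_mul, ← sum_const]
  apply sum_le_sum
  intro τ hτ
  rw [← card_filter]
  apply card_le_card_of_injOn (fun j => A j + ((τ j : ℕ) : ZMod n) - ((τ y : ℕ) : ZMod n))
  · intro j hj
    rw [mem_coe, mem_filter]
    refine ⟨hQ j hj _ _, j, ?_, by ring⟩
    rintro rfl
    exact hy hj
  · intro i hi j hj hij
    simp only [ghosts, mem_filter, mem_univ, true_and] at hτ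
    apply hτ i j
    · rintro rfl; exact hy hi
    · rintro rfl; exact hy hj
    · exact sub_left_injective hij

/-- If the collision probability of `y` is at most `|Q| / |Z|`, then `y` can be moved into `Z`. -/
theorem ghost_move (A : Fin k → ZMod n) (y : Fin k) (Z : Finset (ZMod n))
    (Q : Finset (Fin k)) (hy : y ∉ Q)
    (hQ : ∀ j ∈ Q, ∀ s t : Fin k, A j + ((s : ℕ) : ZMod n) - ((t : ℕ) : ZMod n) ∈ Z)
    (hZ : Z.Nonempty) (h : (colls A y).card * Z.card ≤ Q.card * (ghosts A y).card) :
    ∃ x ∈ Z, Phi (Function.update A y x) ≤ Phi A := by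
  by_contra hcon
  push Not at hcon
  have h1 := sum_colls A y Z Q hy hQ
  have h2 : ∑ x ∈ Z, (colls (Function.update A y x) y).card < ∑ _x ∈ Z, (colls A y).card := by
    apply sum_lt_sum_of_nonempty hZ
    intro x hx
    have e1 := hcon x hx
    have e2 := phi_add_colls A y
    have e3 := phi_add_colls (Function.update A y x) y
    rw [ghosts_update] at e3
    omega
  rw [sum_const, smul_eq_mul, mul_comm] at h2
  omega

end Pool.Agent.KSN
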