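import Mathlib

/-!
# The lopsided local lemma, counting form
-/

set_option autoImplicit false

open Finset

namespace Pool.Agent.KSN

section lll

variable {Ω I : Type*} [DecidableEq Ω] [DecidableEq I]

open scoped Classical in
/-- Points of `X` which avoid all events of `S`. -/
noncomputable def avoid (X : Finset Ω) (holds : I → Ω → Prop) (S : Finset I) : Finset Ω :=
  X.filter (fun ω => ∀ j ∈ S, ¬ holds j ω)

open scoped Classical in
/-- Points of `X` in the event `i` which avoid all events of `S`. -/
noncomputable def hit (X : Finset Ω) (holds : I → Ω → Prop) (i : I) (S : Finset I) : Finset Ω :=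
  (avoid X holds S).filter (holds i)

theorem avoid_anti (X : Finset Ω) (holds : I → Ω → Prop) {S T : Finset I} (h : S ⊆ T) :
    avoid X holds T ⊆ avoid X holds S := by
  intro ω hω
  simp only [avoid, mem_filter] at hω ⊢
  exact ⟨hω.1, fun j hj => hω.2 j (h hj)⟩

theorem hit_anti (X : Finset Ω) (holds : I → Ω → Prop) (i : I) {S T : Finset I} (h : S ⊆ T) :
    hit X holds i T ⊆ hit X holds i S := by
  intro ω hω
  simp only [hit, mem_filter] at hω ⊢
  exact ⟨avoid_anti X holds h hω.1, hω.2⟩

/-- The avoided part of `S₂` is covered by the avoided part of `S₂ ∪ S₁` and the events of `S₁`. -/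
theorem avoid_card_le (X : Finset Ω) (holds : I → Ω → Prop) (S₁ S₂ : Finset I) :
    (avoid X holds S₂).card ≤
      (avoid X holds (S₁ ∪ S₂)).card + ∑ j ∈ S₁, (hit X holds j S₂).card := by
  have hsub : avoid X holds S₂ ⊆ avoid X holds (S₁ ∪ S₂) ∪ S₁.biUnion (fun j => hit X holds j S₂) := by
    intro ω hω
    by_cases h : ∃ j ∈ S₁, holds j ω
    · obtain ⟨j, hj, hjω⟩ := h
      apply mem_union_right
      rw [mem_biUnion]
      exact ⟨j, hj, by simp only [hit, mem_filter]; exact ⟨hω, hjω⟩⟩
    · push Not at h
      apply mem_union_left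
      simp only [avoid, mem_filter, mem_union] at hω ⊢
      refine ⟨hω.1, ?_⟩
      rintro j (hj | hj)
      · exact h j hj
      · exact hω.2 j hj
  calc (avoid X holds S₂).card
      ≤ (avoid X holds (S₁ ∪ S₂) ∪ S₁.biUnion (fun j => hit X holds j S₂)).card := card_le_card hsub
    _ ≤ (avoid X holds (S₁ ∪ S₂)).card + (S₁.biUnion (fun j => hit X holds j S₂)).card :=
        card_union_le _ _
    _ ≤ _ := by
        gcongr
        exact card_biUnion_le

open scoped Classical in
/-- The lopsided local lemma with all neighbourhood sums at most `1/4`. -/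
theorem lll (X : Finset Ω) (holds : I → Ω → Prop) (ev : Finset I) (adj : I → I → Prop)
    (p : I → ℝ) (hp : ∀ i ∈ ev, 0 ≤ p i)
    (hdep : ∀ i ∈ ev, ∀ S ⊆ ev, (∀ j ∈ S, ¬ adj i j) →
      ((hit X holds i S).card : ℝ) ≤ p i * (avoid X holds S).card)
    (hsum : ∀ i ∈ ev, ∑ j ∈ ev.filter (adj i), p j ≤ 1 / 4) :
    ∀ S ⊆ ev, ∀ i ∈ ev, ((hit X holds i S).card : ℝ) ≤ 2 * p i * (avoid X holds S).card := by
  intro S
  induction S using Finset.strongInduction with
  | H S IH =>
    intro hS i hi
    set S₁ := S.filter (adj i) with hS₁
    set S₂ := S.filter (fun j => ¬ adj i j) with hS₂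
    have hS₂ev : S₂ ⊆ ev := (filter_subset _ _).trans hS
    have hunion : S₁ ∪ S₂ = S := filter_union_filter_not_eq _ _
    have h1 : ((hit X holds i S).card : ℝ) ≤ (hit X holds i S₂).card := by
      exact_mod_cast card_le_card (hit_anti X holds i (filter_subset _ _))
    have h2 : ((hit X holds i S₂).card : ℝ) ≤ p i * (avoid X holds S₂).card :=
      hdep i hi S₂ hS₂ev (fun j hj => (mem_filter.mp hj).2)
    have h3 : ((avoid X holds S₂).card : ℝ) ≤ 2 * (avoid X holds S).card := by
      by_cases hne : S₁ = ∅
      · have : S₂ = S := by rw [← hunion, hne, empty_union]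
        rw [this]
        have : (0 : ℝ) ≤ (avoid X holds S).card := Nat.cast_nonneg _
        linarith
      · have hlt : S₂ ⊂ S := by
          rw [Finset.ssubset_iff_subset_ne]
          refine ⟨filter_subset _ _, fun heq => hne ?_⟩
          rw [filter_eq_self] at heq
          rw [hS₁, filter_eq_empty_iff]
          exact heq
        have h4 := avoid_card_le X holds S₁ S₂
        rw [hunion] at h4
        have h5 : (((∑ j ∈ S₁, (hit X holds j S₂).card : ℕ)) : ℝ) ≤
            1 / 2 * (avoid X holds S₂).card := by
          push_cast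
          calc ∑ j ∈ S₁, ((hit X holds j S₂).card : ℝ)
              ≤ ∑ j ∈ S₁, 2 * p j * (avoid X holds S₂).card := by
                apply sum_le_sum
                intro j hj
                exact IH S₂ hlt hS₂ev j (hS (mem_filter.mp hj).1)
            _ = 2 * (∑ j ∈ S₁, p j) * (avoid X holds S₂).card := by
                rw [mul_sum, sum_mul]
            _ ≤ 2 * (1 / 4) * (avoid X holds S₂).card := by
                gcongr
                calc ∑ j ∈ S₁, p j ≤ ∑ j ∈ ev.filter (adj i), p j := by
                      apply sum_le_sum_of_subset_of_nonneg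
                      · intro j hj
                        rw [hS₁, mem_filter] at hj
                        rw [mem_filter]
                        exact ⟨hS hj.1, hj.2⟩
                      · intro j hj _
                        exact hp j (mem_filter.mp hj).1
                  _ ≤ 1 / 4 := hsum i hi
            _ = 1 / 2 * (avoid X holds S₂).card := by ring
        have h6 : ((avoid X holds S₂).card : ℝ) ≤ (avoid X holds S).card +
            (((∑ j ∈ S₁, (hit X holds j S₂).card : ℕ)) : ℝ) := by exact_mod_cast h4
        linarith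
    have hpi := hp i hi
    calc ((hit X holds i S).card : ℝ) ≤ p i * (avoid X holds S₂).card := h1.trans h2
      _ ≤ p i * (2 * (avoid X holds S).card) := by gcongr
      _ = 2 * p i * (avoid X holds S).card := by ring

open scoped Classical in
/-- Lower bound for the number of points avoiding all events. -/
theorem lll_prod (X : Finset Ω) (holds : I → Ω → Prop) (ev : Finset I) (adj : I → I → Prop)
    (p : I → ℝ) (q : ℝ) (hp : ∀ i ∈ ev, 0 ≤ p i) (hq : ∀ i ∈ ev, p i ≤ q) (hq2 : 2 * q ≤ 1)
    (hdep : ∀ i ∈ ev, ∀ S ⊆ ev, (∀ j ∈ S, ¬ adj i j) →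
      ((hit X holds i S).card : ℝ) ≤ p i * (avoid X holds S).card)
    (hsum : ∀ i ∈ ev, ∑ j ∈ ev.filter (adj i), p j ≤ 1 / 4) :
    (1 - 2 * q) ^ ev.card * X.card ≤ (avoid X holds ev).card := by
  have key : ∀ S ⊆ ev, (1 - 2 * q) ^ S.card * X.card ≤ (avoid X holds S).card := by
    intro S
    induction S using Finset.induction_on with
    | empty =>
      intro _
      simp [avoid]
    | insert i S hiS IH =>
      intro hS
      have hSev : S ⊆ ev := (subset_insert _ _).trans hS
      have hi : i ∈ ev := hS (mem_insert_self _ _)
      have h1 := IH hSev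
      have h2 := lll X holds ev adj p hp hdep hsum S hSev i hi
      have h3 := avoid_card_le X holds {i} S
      rw [sum_singleton, ← insert_eq] at h3
      have h4 : ((avoid X holds S).card : ℝ) ≤ (avoid X holds (insert i S)).card +
          (hit X holds i S).card := by exact_mod_cast h3
      have h5 : (0 : ℝ) ≤ (avoid X holds S).card := Nat.cast_nonneg _
      rw [card_insert_of_notMem hiS, pow_succ]
      have h6 : p i ≤ q := hq i hi
      have h7 : 2 * p i * ((avoid X holds S).card : ℝ) ≤ 2 * q * (avoid X holds S).card := by
        gcongr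
      calc (1 - 2 * q) ^ S.card * (1 - 2 * q) * X.card
          = (1 - 2 * q) * ((1 - 2 * q) ^ S.card * X.card) := by ring
        _ ≤ (1 - 2 * q) * (avoid X holds S).card := by
            apply mul_le_mul_of_nonneg_left h1
            linarith
        _ ≤ (avoid X holds (insert i S)).card := by linarith
  exact key ev (Subset.refl _)

end lll

end Pool.Agent.KSN
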