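import Pool.Agent.KSN.Coll

/-!
# All windows light: the local lemma for all elements
-/

set_option autoImplicit false

open Finset

namespace Pool.Agent.KSN

variable {n k : ℕ}

theorem light (hk : 1000 ≤ k) (hkn : k ≤ n) (A : Fin k → ZMod n) (Δ : ℕ)
    (hdeg : ∀ u, deg A u ≤ Δ) (hΔ : 200 * Δ ≤ k) : k.factorial ≤ 2 ^ (k / 2) * Phi A := by
  classical
  set U : Finset (Fin k) := univ with hU
  have hcU : U.card = k := by rw [hU, card_univ, Fintype.card_fin]
  have hM2 : 2 ≤ U.card := by omega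
  have hE : (U.filter (fun u => ∃ j, j ∉ U ∧ Rel A u j)).card ≤ 0 := by
    rw [Nat.le_zero, card_eq_zero, filter_eq_empty_iff]
    rintro u _ ⟨j, hj, -⟩
    exact hj (mem_univ _)
  have hM : 32 * Δ + 16 * 0 + 1 ≤ U.card := by omega
  have hdeg' : ∀ u ∈ U, deg A u ≤ Δ := fun u _ => hdeg u
  set τ₀ : Equiv.Perm (Fin k) := 1
  have hX : cls U τ₀ = univ := by
    rw [cls, filter_eq_self]
    intro τ _ j hj
    exact absurd (mem_univ _) hj
  have hcard := card_image_perm U τ₀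
  have hsw := cls_swappable U τ₀
  have hdep : ∀ B ∈ evs A U τ₀, ∀ S ⊆ evs A U τ₀, (∀ B' ∈ S, ¬ adj B B') →
      ((hit (cls U τ₀) holds B S).card : ℝ) ≤ prob U.card B * (avoid (cls U τ₀) holds S).card := by
    intro B hB T _ hT
    have h := neg_dep (cls U τ₀) U (U.image τ₀) hsw (by rw [hcard]; exact hM2) B
      (by simp only [evs, mem_filter] at hB; exact hB.2.1) T hT
    rw [hcard] at h
    exact h
  have hkR : (1000 : ℝ) ≤ k := by exact_mod_cast hk
  set q : ℝ := 1 / ((k : ℝ) * ((k : ℝ) - 1)) with hq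
  have hk1 : (0 : ℝ) < (k : ℝ) - 1 := by linarith
  have hkk : (0 : ℝ) < (k : ℝ) * ((k : ℝ) - 1) := by positivity
  have hprob : ∀ B ∈ evs A U τ₀, prob U.card B = q := by
    intro B hB
    simp only [evs, mem_filter, mem_univ, true_and] at hB
    unfold prob
    rw [if_neg, hcU]
    intro heq
    rcases hB.2 with ⟨-, j, hj, -⟩ | ⟨hne, -⟩
    · exact hj (mem_univ _)
    · exact hne (congrArg Prod.fst heq)
  have hq2 : 2 * q ≤ 1 := by
    rw [hq, mul_one_div, div_le_one hkk]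
    nlinarith
  have hq0 : 0 ≤ q := by rw [hq]; positivity
  have hmain := lll_prod (cls U τ₀) holds (evs A U τ₀) adj (prob U.card) q
    (fun B' _ => prob_nonneg _ hM2 B') (fun B hB => (hprob B hB).le) hq2 hdep
    (fun B _ => adj_sum hkn A U τ₀ Δ 0 hdeg' hE hM2 hM B)
  have hav : (avoid (cls U τ₀) holds (evs A U τ₀)).card ≤ Phi A := by
    unfold Phi
    apply card_le_card
    intro τ hτ
    simp only [avoid, mem_filter] at hτ
    rw [mem_filter]
    refine ⟨mem_univ _, ?_⟩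
    intro i j hij
    by_contra hne
    apply hτ.2 ((i, τ i), (j, τ j)) _ ⟨rfl, rfl⟩
    simp only [evs, Adm, mem_filter, mem_univ, true_and]
    exact ⟨⟨mem_univ _, hsw.maps τ hτ.1 i (mem_univ _), mem_univ _,
      hsw.maps τ hτ.1 j (mem_univ _), Or.inr ⟨hne, fun h => hne (τ.injective h)⟩⟩,
      Or.inr ⟨hne, hij⟩⟩
  have hXcard : (cls U τ₀).card = k.factorial := by
    rw [hX, card_univ, Fintype.card_perm, Fintype.card_fin]
  rw [hXcard] at hmain
  -- number of events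
  have hne : ((evs A U τ₀).card : ℝ) ≤ (k : ℝ) ^ 2 * Δ := by
    have h1 : ((evs A U τ₀).card : ℝ) * q = ∑ B ∈ evs A U τ₀, prob U.card B := by
      rw [sum_congr rfl hprob, sum_const, nsmul_eq_mul]
    have h2 : ∑ B ∈ evs A U τ₀, prob U.card B =
        ∑ u : Fin k, ∑ B ∈ (evs A U τ₀).filter (fun B => B.1.1 = u), prob U.card B :=
      (sum_fiberwise_of_maps_to (fun _ _ => mem_univ _) _).symm
    have h3 : ∑ u : Fin k, ∑ B ∈ (evs A U τ₀).filter (fun B => B.1.1 = u), prob U.card B ≤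
        ∑ _u : Fin k, (Δ : ℝ) / ((U.card : ℝ) - 1) :=
      sum_le_sum (fun u _ => row_sum hkn A U τ₀ Δ hdeg' hM2 u)
    rw [hcU, sum_const, card_univ, Fintype.card_fin, nsmul_eq_mul] at h3
    have h4 : ((evs A U τ₀).card : ℝ) * q ≤ k * ((Δ : ℝ) / ((k : ℝ) - 1)) := by
      rw [h1, h2, hcU]; exact h3
    rw [hq, mul_one_div, div_le_iff₀ hkk] at h4
    calc ((evs A U τ₀).card : ℝ) ≤ k * ((Δ : ℝ) / ((k : ℝ) - 1)) * (k * ((k : ℝ) - 1)) := h4
      _ = (k : ℝ) ^ 2 * Δ := by field_simp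
  have hne' : (evs A U τ₀).card ≤ (k * (k / 8)) * (k / 2) := by
    have h1 : (evs A U τ₀).card ≤ k ^ 2 * Δ := by exact_mod_cast hne
    refine h1.trans ?_
    have h2 : k * Δ ≤ (k / 8) * (k / 2) := by
      obtain ⟨a, ha⟩ : ∃ a, a = k / 8 := ⟨_, rfl⟩
      obtain ⟨b, hb⟩ : ∃ b, b = k / 2 := ⟨_, rfl⟩
      rw [← ha, ← hb]
      have ha' : k ≤ 9 * a := by omega
      have hb' : k ≤ 3 * b := by omega
      have h3 : k * k ≤ (9 * a) * (3 * b) := Nat.mul_le_mul ha' hb'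
      have h4 : k * (200 * Δ) ≤ k * k := Nat.mul_le_mul_left _ hΔ
      nlinarith
    calc k ^ 2 * Δ = k * (k * Δ) := by ring
      _ ≤ k * ((k / 8) * (k / 2)) := Nat.mul_le_mul_left _ h2
      _ = _ := by ring
  have hbern : (1 / 2 : ℝ) ≤ (1 - 2 * q) ^ (k * (k / 8)) := by
    have h1 := one_add_mul_le_pow (a := -(2 * q)) (by linarith) (k * (k / 8))
    have h2 : ((k * (k / 8) : ℕ) : ℝ) * (2 * q) ≤ 1 / 2 := by
      have h3 : ((k / 8 : ℕ) : ℝ) ≤ (k : ℝ) / 8 := Nat.cast_div_le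
      push_cast
      rw [hq, mul_one_div, mul_div_assoc', div_le_iff₀ hkk]
      have : (k : ℝ) * ((k / 8 : ℕ) : ℝ) ≤ k * ((k : ℝ) / 8) := by gcongr
      nlinarith
    have h4 : (1 : ℝ) + ((k * (k / 8) : ℕ) : ℝ) * -(2 * q) ≤ (1 + -(2 * q)) ^ (k * (k / 8)) := h1
    have h5 : (1 : ℝ) + -(2 * q) = 1 - 2 * q := by ring
    rw [h5] at h4
    linarith
  have hpow : (1 / 2 : ℝ) ^ (k / 2) ≤ (1 - 2 * q) ^ (evs A U τ₀).card := by
    calc (1 / 2 : ℝ) ^ (k / 2) ≤ ((1 - 2 * q) ^ (k * (k / 8))) ^ (k / 2) := by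
          gcongr
      _ = (1 - 2 * q) ^ ((k * (k / 8)) * (k / 2)) := by rw [← pow_mul]
      _ ≤ (1 - 2 * q) ^ (evs A U τ₀).card := by
          apply pow_le_pow_of_le_one _ _ hne'
          · linarith
          · linarith
  have hfin : (k.factorial : ℝ) ≤ 2 ^ (k / 2) * (Phi A : ℝ) := by
    have h1 : (1 / 2 : ℝ) ^ (k / 2) * k.factorial ≤ Phi A := by
      calc (1 / 2 : ℝ) ^ (k / 2) * k.factorial
          ≤ (1 - 2 * q) ^ (evs A U τ₀).card * k.factorial := by gcongr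
        _ ≤ (avoid (cls U τ₀) holds (evs A U τ₀)).card := hmain
        _ ≤ Phi A := by exact_mod_cast hav
    calc (k.factorial : ℝ) = 2 ^ (k / 2) * ((1 / 2 : ℝ) ^ (k / 2) * k.factorial) := by
          rw [← mul_assoc, ← mul_pow]
          norm_num
      _ ≤ 2 ^ (k / 2) * (Phi A : ℝ) := by gcongr
  exact_mod_cast hfin

end Pool.Agent.KSN
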