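import Mathlib

/-!
# Selection of windows

Pure combinatorics: a positive function `b` on `L` windows with total at most `k`, where
`L` is at least a constant times `(log k + 1) ^ 2`, has a set of windows such that all local sums are
small against the total mass of the set and the mass of its end windows is small.
-/

set_option autoImplicit false

open Finset

namespace Pool.Agent.KSN

/-- A sequence with values between `1` and `k` cannot grow by one percent at each of
`70 (log k + 1)` steps. -/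
theorem growth (f : ℕ → ℕ) (k : ℕ) (h0 : 1 ≤ f 0)
    (hk : f (70 * (Nat.log 2 k + 1)) ≤ k) :
    ∃ i < 70 * (Nat.log 2 k + 1), 100 * f (i + 1) ≤ 101 * f i := by
  by_contra hcon
  push Not at hcon
  have h1 : ∀ i, i ≤ 70 * (Nat.log 2 k + 1) → 101 ^ i ≤ 100 ^ i * f i := by
    intro i
    induction i with
    | zero => intro _; simpa using h0
    | succ i ih =>
      intro hi
      have h2 := ih (by omega)
      have h3 := hcon i (by omega)
      calc 101 ^ (i + 1) = 101 * 101 ^ i := by ring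
        _ ≤ 101 * (100 ^ i * f i) := Nat.mul_le_mul le_rfl h2
        _ = 100 ^ i * (101 * f i) := by ring
        _ ≤ 100 ^ i * (100 * f (i + 1)) := Nat.mul_le_mul le_rfl h3.le
        _ = 100 ^ (i + 1) * f (i + 1) := by ring
  have h2 := h1 _ le_rfl
  have h3 : 2 * 100 ^ 70 ≤ 101 ^ 70 := by norm_num
  have h4 : (2 * 100 ^ 70) ^ (Nat.log 2 k + 1) ≤ (101 ^ 70) ^ (Nat.log 2 k + 1) :=
    Nat.pow_le_pow_left h3 _
  rw [mul_pow, ← pow_mul, ← pow_mul] at h4
  have h5 : k < 2 ^ (Nat.log 2 k + 1) := Nat.lt_pow_succ_log_self (by norm_num) k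
  have h6 : 100 ^ (70 * (Nat.log 2 k + 1)) * f (70 * (Nat.log 2 k + 1)) ≤
      100 ^ (70 * (Nat.log 2 k + 1)) * k := Nat.mul_le_mul le_rfl hk
  have h7 : 2 ^ (Nat.log 2 k + 1) * 100 ^ (70 * (Nat.log 2 k + 1)) ≤
      k * 100 ^ (70 * (Nat.log 2 k + 1)) := by
    calc _ ≤ _ := h4
      _ ≤ _ := h2
      _ ≤ _ := h6
      _ = _ := by ring
  have h8 : 0 < 100 ^ (70 * (Nat.log 2 k + 1)) := by positivity
  have h9 := Nat.le_of_mul_le_mul_right h7 h8
  omega

/-- One arc in the block `[P, P + 600 (log k + 1) + 10)`, whose two end windows are light. -/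
theorem arc (b : ℕ → ℕ) (k P : ℕ) (hk : 1 ≤ k)
    (hb : ∀ i, P ≤ i → i < P + (600 * (Nat.log 2 k + 1) + 10) → 1 ≤ b i)
    (hsum : ∑ i ∈ Ico P (P + (600 * (Nat.log 2 k + 1) + 10)), b i ≤ k) :
    ∃ s t : ℕ, s ≤ t ∧ P < s ∧ t + 1 < P + (600 * (Nat.log 2 k + 1) + 10) ∧
      100 * (b (s - 1) + b s + b (s + 1)) ≤ ∑ i ∈ Icc s t, b i ∧
      100 * (b (t - 1) + b t + b (t + 1)) ≤ ∑ i ∈ Icc s t, b i := by
  set e := Nat.log 2 k + 1 with he
  set c := P + (300 * e + 4) with hc
  have hmono : ∀ s t s' t' : ℕ, s' ≤ s → t ≤ t' →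
      ∑ i ∈ Icc s t, b i ≤ ∑ i ∈ Icc s' t', b i := by
    intro s t s' t' h1 h2
    exact sum_le_sum_of_subset (Icc_subset_Icc h1 h2)
  have hblock : ∀ s t : ℕ, P ≤ s → t < P + (600 * e + 10) →
      ∑ i ∈ Icc s t, b i ≤ k := by
    intro s t h1 h2
    refine le_trans (sum_le_sum_of_subset ?_) hsum
    intro i hi
    rw [mem_Icc] at hi
    rw [mem_Ico]
    omega
  -- left end
  obtain ⟨i, hi, hi2⟩ := growth (fun i => ∑ x ∈ Icc (c - 3 * i) c, b x) k
    (by
      have h1 : 1 ≤ b c := hb c (by omega) (by omega)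
      simpa using h1)
    (by
      refine hblock _ _ ?_ ?_
      · have : 3 * (70 * (Nat.log 2 k + 1)) = 210 * e := by rw [he]; ring
        omega
      · omega)
  have hi3 : 3 * i + 3 ≤ 210 * e := by
    have : 70 * (Nat.log 2 k + 1) = 70 * e := by rw [he]
    omega
  have hl : ∑ x ∈ Icc (c - 3 * (i + 1)) c, b x =
      b (c - 3 * i - 3) + b (c - 3 * i - 2) + b (c - 3 * i - 1) +
        ∑ x ∈ Icc (c - 3 * i) c, b x := by
    have e1 : c - 3 * (i + 1) = c - 3 * i - 3 := by omega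
    rw [e1]
    have step : ∀ s t : ℕ, 1 ≤ s → s ≤ t + 1 →
        ∑ x ∈ Icc (s - 1) t, b x = b (s - 1) + ∑ x ∈ Icc s t, b x := by
      intro s t h1 h2
      have e2 : Icc (s - 1) t = insert (s - 1) (Icc s t) := by
        ext x
        simp only [mem_Icc, mem_insert]
        omega
      rw [e2, sum_insert (by simp only [mem_Icc]; omega)]
    have s1 := step (c - 3 * i) c (by omega) (by omega)
    have s2 := step (c - 3 * i - 1) c (by omega) (by omega)
    have s3 := step (c - 3 * i - 2) c (by omega) (by omega)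
    have e3 : c - 3 * i - 1 - 1 = c - 3 * i - 2 := by omega
    have e4 : c - 3 * i - 2 - 1 = c - 3 * i - 3 := by omega
    rw [e3] at s2
    rw [e4] at s3
    rw [s3, s2, s1]
    ring
  have hL : 100 * (b (c - 3 * i - 3) + b (c - 3 * i - 2) + b (c - 3 * i - 1)) ≤
      ∑ x ∈ Icc (c - 3 * i) c, b x := by
    rw [hl] at hi2
    omega
  -- right end
  obtain ⟨j, hj, hj2⟩ := growth (fun i => ∑ x ∈ Icc c (c + 3 * i), b x) k
    (by
      have h1 : 1 ≤ b c := hb c (by omega) (by omega)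
      simpa using h1)
    (by
      refine hblock _ _ ?_ ?_
      · omega
      · have : 3 * (70 * (Nat.log 2 k + 1)) = 210 * e := by rw [he]; ring
        omega)
  have hj3 : 3 * j + 3 ≤ 210 * e := by
    have : 70 * (Nat.log 2 k + 1) = 70 * e := by rw [he]
    omega
  have hr : ∑ x ∈ Icc c (c + 3 * (j + 1)), b x =
      b (c + 3 * j + 1) + b (c + 3 * j + 2) + b (c + 3 * j + 3) +
        ∑ x ∈ Icc c (c + 3 * j), b x := by
    have e1 : c + 3 * (j + 1) = c + 3 * j + 1 + 1 + 1 := by omega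
    rw [e1, sum_Icc_succ_top (by omega), sum_Icc_succ_top (by omega),
      sum_Icc_succ_top (by omega)]
    ring
  have hR : 100 * (b (c + 3 * j + 1) + b (c + 3 * j + 2) + b (c + 3 * j + 3)) ≤
      ∑ x ∈ Icc c (c + 3 * j), b x := by
    rw [hr] at hj2
    omega
  refine ⟨c - 3 * i - 2, c + 3 * j + 2, by omega, by omega, by omega, ?_, ?_⟩
  · have e1 : c - 3 * i - 2 - 1 = c - 3 * i - 3 := by omega
    have e2 : c - 3 * i - 2 + 1 = c - 3 * i - 1 := by omega
    rw [e1, e2]
    exact hL.trans (hmono _ _ _ _ (by omega) (by omega))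
  · have e1 : c + 3 * j + 2 - 1 = c + 3 * j + 1 := by omega
    have e2 : c + 3 * j + 2 + 1 = c + 3 * j + 3 := by omega
    rw [e1, e2]
    exact hR.trans (hmono _ _ _ _ (by omega) (by omega))

open scoped Classical in
theorem selection (b : ℕ → ℕ) (k L K : ℕ) (hk : 1 ≤ k) (hK : 1 ≤ K) (hb : ∀ i < L, 1 ≤ b i)
    (hsum : ∑ i ∈ range L, b i ≤ k)
    (hL : 2 * K * (Nat.log 2 k + 1) * (600 * (Nat.log 2 k + 1) + 10) ≤ L) :
    ∃ W : Finset ℕ, W.Nonempty ∧ (∀ i ∈ W, 1 ≤ i ∧ i + 2 ≤ L) ∧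
      (∀ i ∈ W, K * (b (i - 1) + b i + b (i + 1)) ≤ ∑ i ∈ W, b i) ∧
      50 * (∑ i ∈ W.filter (fun i => i - 1 ∉ W ∨ i + 1 ∉ W), b i) ≤ ∑ i ∈ W, b i := by
  set e := Nat.log 2 k + 1 with he
  set R := 600 * e + 10 with hR
  -- the blocks are inside `[0, L)`
  have hin : ∀ q < 2 * K * e, q * R + R ≤ L := by
    intro q hq
    calc q * R + R = (q + 1) * R := by ring
      _ ≤ 2 * K * e * R := Nat.mul_le_mul hq le_rfl
      _ ≤ L := hL
  have hsub : ∀ s t : ℕ, t ≤ L → ∑ i ∈ Ico s t, b i ≤ k := by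
    intro s t ht
    refine le_trans (sum_le_sum_of_subset ?_) hsum
    intro i hi
    rw [mem_Ico] at hi
    rw [mem_range]
    omega
  have harc : ∀ q : ℕ, ∃ s t : ℕ, q < 2 * K * e → (s ≤ t ∧ q * R < s ∧ t + 1 < q * R + R ∧
      100 * (b (s - 1) + b s + b (s + 1)) ≤ ∑ i ∈ Icc s t, b i ∧
      100 * (b (t - 1) + b t + b (t + 1)) ≤ ∑ i ∈ Icc s t, b i) := by
    intro q
    by_cases hq : q < 2 * K * e
    · obtain ⟨s, t, h1⟩ := arc b k (q * R) hk
        (fun i _ hi2 => hb i (lt_of_lt_of_le hi2 (hin q hq)))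
        (hsub _ _ (hin q hq))
      exact ⟨s, t, fun _ => h1⟩
    · exact ⟨0, 0, fun h => absurd h hq⟩
  choose s t hst using harc
  -- masses of the arcs
  set M : ℕ → ℕ := fun q => ∑ i ∈ Icc (s q) (t q), b i with hM
  have hM1 : ∀ q < 2 * K * e, 1 ≤ M q := by
    intro q hq
    obtain ⟨h1, h2, h3, -, -⟩ := hst q hq
    have h4 : 1 ≤ b (s q) := hb _ (by have := hin q hq; omega)
    refine h4.trans ?_
    exact single_le_sum (f := b) (fun _ _ => Nat.zero_le _) (mem_Icc.2 ⟨le_rfl, h1⟩)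
  have hMk : ∀ q < 2 * K * e, M q ≤ k := by
    intro q hq
    obtain ⟨h1, h2, h3, -, -⟩ := hst q hq
    refine le_trans (sum_le_sum_of_subset ?_) (hsub (s q) (t q + 1) (by have := hin q hq; omega))
    intro i hi
    rw [mem_Icc] at hi
    rw [mem_Ico]
    omega
  -- pigeonhole
  obtain ⟨v, hv, hcard⟩ : ∃ v ∈ range e, 2 * K ≤
      ((range (2 * K * e)).filter (fun q => Nat.log 2 (M q) = v)).card := by
    refine exists_le_card_fiber_of_mul_le_card_of_maps_to ?_ ?_ ?_
    · intro q hq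
      rw [mem_range] at hq ⊢
      have := Nat.log_mono_right (b := 2) (hMk q hq)
      omega
    · exact ⟨0, mem_range.2 (by omega)⟩
    · rw [card_range, card_range]
      exact le_of_eq (by ring)
  set Q := (range (2 * K * e)).filter (fun q => Nat.log 2 (M q) = v) with hQ
  have hQm : ∀ q ∈ Q, q < 2 * K * e ∧ 2 ^ v ≤ M q ∧ M q < 2 ^ (v + 1) := by
    intro q hq
    rw [hQ, mem_filter, mem_range] at hq
    obtain ⟨h1, h2⟩ := hq
    refine ⟨h1, ?_, ?_⟩
    · rw [← h2]
      exact Nat.pow_log_le_self 2 (by have := hM1 q h1; omega)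
    · rw [← h2]
      exact Nat.lt_pow_succ_log_self (by norm_num) _
  set W := Q.biUnion (fun q => Icc (s q) (t q)) with hW
  have hdisj : ∀ q ∈ Q, ∀ r ∈ Q, q ≠ r → Disjoint (Icc (s q) (t q)) (Icc (s r) (t r)) := by
    intro q hq r hr hqr
    obtain ⟨-, a2, a3, -, -⟩ := hst q (hQm q hq).1
    obtain ⟨-, c2, c3, -, -⟩ := hst r (hQm r hr).1
    rw [disjoint_left]
    intro i hi hi2
    rw [mem_Icc] at hi hi2
    rcases lt_or_gt_of_ne hqr with h | h
    · have : q * R + R ≤ r * R := by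
        calc q * R + R = (q + 1) * R := by ring
          _ ≤ r * R := Nat.mul_le_mul h le_rfl
      omega
    · have : r * R + R ≤ q * R := by
        calc r * R + R = (r + 1) * R := by ring
          _ ≤ q * R := Nat.mul_le_mul h le_rfl
      omega
  have hsumW : ∑ i ∈ W, b i = ∑ q ∈ Q, M q := by
    rw [hW, sum_biUnion hdisj]
  have hmass : K * 2 ^ (v + 1) ≤ ∑ i ∈ W, b i := by
    rw [hsumW]
    calc K * 2 ^ (v + 1) = (2 * K) * 2 ^ v := by ring
      _ ≤ Q.card * 2 ^ v := Nat.mul_le_mul hcard le_rfl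
      _ = ∑ _q ∈ Q, 2 ^ v := by rw [sum_const, smul_eq_mul]
      _ ≤ ∑ q ∈ Q, M q := sum_le_sum (fun q hq => (hQm q hq).2.1)
  have hmemW : ∀ i, i ∈ W ↔ ∃ q ∈ Q, s q ≤ i ∧ i ≤ t q := by
    intro i
    rw [hW, mem_biUnion]
    simp only [mem_Icc]
  refine ⟨W, ?_, ?_, ?_, ?_⟩
  · have h1 : 0 < Q.card := lt_of_lt_of_le (by omega) hcard
    obtain ⟨q, hq⟩ := card_pos.1 h1
    exact ⟨s q, (hmemW _).2 ⟨q, hq, le_rfl, (hst q (hQm q hq).1).1⟩⟩
  · intro i hi
    obtain ⟨q, hq, h1, h2⟩ := (hmemW i).1 hi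
    obtain ⟨-, a2, a3, -, -⟩ := hst q (hQm q hq).1
    have := hin q (hQm q hq).1
    omega
  · intro i hi
    obtain ⟨q, hq, h1, h2⟩ := (hmemW i).1 hi
    obtain ⟨a1, a2, a3, a4, a5⟩ := hst q (hQm q hq).1
    have h3 : b (i - 1) + b i + b (i + 1) ≤ M q := by
      rcases Nat.eq_or_lt_of_le h1 with h | h
      · rw [← h]
        exact le_trans (by omega) a4
      · rcases Nat.eq_or_lt_of_le h2 with h' | h'
        · rw [h']
          exact le_trans (by omega) a5
        · have e1 : ({i - 1, i, i + 1} : Finset ℕ) ⊆ Icc (s q) (t q) := by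
            intro x hx
            simp only [mem_insert, mem_singleton] at hx
            rw [mem_Icc]
            omega
          have e2 : ∑ x ∈ ({i - 1, i, i + 1} : Finset ℕ), b x =
              b (i - 1) + b i + b (i + 1) := by
            rw [sum_insert (by simp only [mem_insert, mem_singleton]; omega),
              sum_insert (by simp only [mem_singleton]; omega), sum_singleton]
            ring
          rw [← e2]
          exact sum_le_sum_of_subset e1
    calc K * (b (i - 1) + b i + b (i + 1)) ≤ K * 2 ^ (v + 1) :=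
          Nat.mul_le_mul le_rfl (h3.trans (hQm q hq).2.2.le)
      _ ≤ _ := hmass
  · have h1 : W.filter (fun i => i - 1 ∉ W ∨ i + 1 ∉ W) ⊆
        Q.biUnion (fun q => {s q, t q}) := by
      intro i hi
      rw [mem_filter] at hi
      obtain ⟨hi1, hi2⟩ := hi
      obtain ⟨q, hq, h1, h2⟩ := (hmemW i).1 hi1
      obtain ⟨a1, a2, a3, a4, a5⟩ := hst q (hQm q hq).1
      rw [mem_biUnion]
      refine ⟨q, hq, ?_⟩
      rw [mem_insert, mem_singleton]
      by_contra hcon
      push Not at hcon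
      have h3 : s q < i := lt_of_le_of_ne h1 (Ne.symm hcon.1)
      have h4 : i < t q := lt_of_le_of_ne h2 hcon.2
      rcases hi2 with h | h
      · exact h ((hmemW _).2 ⟨q, hq, by omega, by omega⟩)
      · exact h ((hmemW _).2 ⟨q, hq, by omega, by omega⟩)
    have h2 : ∑ i ∈ W.filter (fun i => i - 1 ∉ W ∨ i + 1 ∉ W), b i ≤
        ∑ q ∈ Q, ∑ i ∈ ({s q, t q} : Finset ℕ), b i :=
      (sum_le_sum_of_subset h1).trans (le_of_eq (sum_biUnion (by
        intro q hq r hr hqr
        refine (hdisj q hq r hr hqr).mono ?_ ?_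
        · obtain ⟨a1, -, -, -, -⟩ := hst q (hQm q hq).1
          intro x hx
          rw [mem_insert, mem_singleton] at hx
          rw [mem_Icc]
          omega
        · obtain ⟨a1, -, -, -, -⟩ := hst r (hQm r hr).1
          intro x hx
          rw [mem_insert, mem_singleton] at hx
          rw [mem_Icc]
          omega)))
    have h3 : ∀ q ∈ Q, 50 * ∑ i ∈ ({s q, t q} : Finset ℕ), b i ≤ M q := by
      intro q hq
      obtain ⟨a1, a2, a3, a4, a5⟩ := hst q (hQm q hq).1
      have h5 : ∑ i ∈ ({s q, t q} : Finset ℕ), b i ≤ b (s q) + b (t q) := by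
        by_cases h6 : s q = t q
        · rw [h6]
          simp
        · rw [sum_pair h6]
      have h7 : 100 * b (s q) ≤ M q := le_trans (by omega) a4
      have h8 : 100 * b (t q) ≤ M q := le_trans (by omega) a5
      omega
    calc 50 * (∑ i ∈ W.filter (fun i => i - 1 ∉ W ∨ i + 1 ∉ W), b i)
        ≤ 50 * ∑ q ∈ Q, ∑ i ∈ ({s q, t q} : Finset ℕ), b i := Nat.mul_le_mul le_rfl h2
      _ = ∑ q ∈ Q, 50 * ∑ i ∈ ({s q, t q} : Finset ℕ), b i := by rw [mul_sum]
      _ ≤ ∑ q ∈ Q, M q := sum_le_sum h3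
      _ = ∑ i ∈ W, b i := hsumW.symm

end Pool.Agent.KSN
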