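import Pool.Agent.KSN.Defs

/-!
# Windows

The residues modulo `n` are cut in windows of length `k`: elements with a common sum are in the same
or in adjacent windows, an empty window gives an integer vector with the same number of good
assignments.
-/

set_option autoImplicit false

open Finset

namespace Pool.Agent.KSN

/-- Comparison of two sums by their representatives. -/
theorem val_sum {n k : ℕ} (hn : 0 < n) (x y : ZMod n) (s t : Fin k)
    (h : x + ((s : ℕ) : ZMod n) = y + ((t : ℕ) : ZMod n)) :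
    (x.val + (s : ℕ)) % n = (y.val + (t : ℕ)) % n := by
  have : NeZero n := ⟨hn.ne'⟩
  have h1 : ((x.val + (s : ℕ) : ℕ) : ZMod n) = ((y.val + (t : ℕ) : ℕ) : ZMod n) := by
    push_cast
    rw [ZMod.natCast_zmod_val, ZMod.natCast_zmod_val]
    exact h
  exact (ZMod.natCast_eq_natCast_iff' _ _ _).1 h1

theorem idx_near {n k : ℕ} (hk : 0 < k) (x y : ZMod n) (s t : Fin k)
    (h : x + ((s : ℕ) : ZMod n) = y + ((t : ℕ) : ZMod n))
    (h1 : 1 ≤ idx k x) (h2 : idx k x + 2 ≤ n / k) :
    idx k y + 1 = idx k x ∨ idx k y = idx k x ∨ idx k y = idx k x + 1 := by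
  have hn : 0 < n := by
    rcases Nat.eq_zero_or_pos n with h0 | h0
    · have h3 : n / k = 0 := by rw [h0]; exact Nat.zero_div k
      omega
    · exact h0
  have : NeZero n := ⟨hn.ne'⟩
  have hv := val_sum hn x y s t h
  have hy : y.val < n := ZMod.val_lt y
  have hs : (s : ℕ) < k := s.isLt
  have ht : (t : ℕ) < k := t.isLt
  unfold idx at h1 h2 ⊢
  set X := x.val with hX
  set Y := y.val with hY
  have a1 : k * (X / k) + X % k = X := Nat.div_add_mod X k
  have a2 : X % k < k := Nat.mod_lt _ hk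
  have a3 : k * (n / k) ≤ n := Nat.mul_div_le n k
  have a4 : k * (X / k + 2) ≤ n := (Nat.mul_le_mul le_rfl h2).trans a3
  have a5 : k * 1 ≤ k * (X / k) := Nat.mul_le_mul le_rfl h1
  have a6 : k * (X / k + 2) = k * (X / k) + 2 * k := by ring
  have a7 : X + (s : ℕ) < n := by omega
  have a8 : Y + (t : ℕ) = X + (s : ℕ) := by
    rw [Nat.mod_eq_of_lt a7] at hv
    rcases lt_or_ge (Y + (t : ℕ)) n with h3 | h3
    · rw [Nat.mod_eq_of_lt h3] at hv
      exact hv.symm
    · rw [Nat.mod_eq_sub_mod h3, Nat.mod_eq_of_lt (by omega)] at hv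
      omega
  have b1 : k * (Y / k) + Y % k = Y := Nat.div_add_mod Y k
  have b2 : Y % k < k := Nat.mod_lt _ hk
  have b3 : Y / k < X / k + 2 := by
    rw [Nat.div_lt_iff_lt_mul hk]
    have : (X / k + 2) * k = k * (X / k) + 2 * k := by ring
    omega
  have b4 : X / k < Y / k + 2 := by
    rw [Nat.div_lt_iff_lt_mul hk]
    have : (Y / k + 2) * k = k * (Y / k) + 2 * k := by ring
    omega
  omega

theorem zone {n k : ℕ} (hk : 0 < k) (hn : 0 < n) (p : ℕ) :
    ∃ Z : Finset (ZMod n), Z.card ≤ 3 * k ∧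
      ∀ x, x ∈ Z ↔ ∃ z : ZMod n, idx k z = p ∧
        ∃ s t : Fin k, x = z + ((s : ℕ) : ZMod n) - ((t : ℕ) : ZMod n) := by
  classical
  have : NeZero n := ⟨hn.ne'⟩
  refine ⟨univ.filter (fun x => ∃ z : ZMod n, idx k z = p ∧
        ∃ s t : Fin k, x = z + ((s : ℕ) : ZMod n) - ((t : ℕ) : ZMod n)), ?_, ?_⟩
  · have h1 : univ.filter (fun x : ZMod n => ∃ z : ZMod n, idx k z = p ∧
        ∃ s t : Fin k, x = z + ((s : ℕ) : ZMod n) - ((t : ℕ) : ZMod n)) ⊆
        (range (3 * k)).image (fun i : ℕ =>
          ((p * k : ℕ) : ZMod n) - ((k - 1 : ℕ) : ZMod n) + ((i : ℕ) : ZMod n)) := by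
      intro x hx
      rw [mem_filter] at hx
      obtain ⟨-, z, hz, s, t, hx⟩ := hx
      rw [mem_image]
      have a1 : k * (z.val / k) + z.val % k = z.val := Nat.div_add_mod _ k
      have a2 : z.val % k < k := Nat.mod_lt _ hk
      have hs : (s : ℕ) < k := s.isLt
      have ht : (t : ℕ) < k := t.isLt
      unfold idx at hz
      rw [hz] at a1
      refine ⟨z.val % k + (s : ℕ) + ((k - 1) - (t : ℕ)), ?_, ?_⟩
      · rw [mem_range]
        omega
      · have e1 : z = ((p * k : ℕ) : ZMod n) + ((z.val % k : ℕ) : ZMod n) := by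
          rw [← Nat.cast_add]
          have : p * k + z.val % k = z.val := by rw [mul_comm p k]; exact a1
          rw [this, ZMod.natCast_zmod_val]
        have e2 : (((k - 1) - (t : ℕ) : ℕ) : ZMod n) = ((k - 1 : ℕ) : ZMod n) - ((t : ℕ) : ZMod n) := by
          rw [Nat.cast_sub (by omega)]
        have e3 : x = ((p * k : ℕ) : ZMod n) + ((z.val % k : ℕ) : ZMod n) +
            ((s : ℕ) : ZMod n) - ((t : ℕ) : ZMod n) := by
          rw [← e1]
          exact hx
        rw [e3, Nat.cast_add, Nat.cast_add, e2]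
        ring
    refine (card_le_card h1).trans (card_image_le.trans ?_)
    rw [card_range]
  · intro x
    rw [mem_filter]
    exact ⟨fun h => h.2, fun h => ⟨mem_univ _, h⟩⟩

theorem gap_phi {n k : ℕ} (m : ℕ) (A : Fin k → ZMod n) (i : ℕ) (hi : i + 1 ≤ n / k)
    (hA : ∀ j, idx k (A j) ≠ i) : ∃ B : Fin k → ZMod m, Phi B ≤ Phi A := by
  classical
  have hk : 0 < k := by
    rcases Nat.eq_zero_or_pos k with h0 | h0
    · rw [h0, Nat.div_zero] at hi
      omega
    · exact h0
  have hn : 0 < n := by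
    rcases Nat.eq_zero_or_pos n with h0 | h0
    · rw [h0, Nat.zero_div] at hi
      omega
    · exact h0
  have : NeZero n := ⟨hn.ne'⟩
  have hc : (i + 1) * k ≤ n := (Nat.le_div_iff_mul_le hk).1 hi
  have hc' : (i + 1) * k = i * k + k := by ring
  set c := (i + 1) * k with hcdef
  set b : Fin k → ℕ := fun j => (A j - ((c : ℕ) : ZMod n)).val with hb
  have hbv : ∀ j, ((b j : ℕ) : ZMod n) = A j - ((c : ℕ) : ZMod n) := by
    intro j
    rw [hb]
    simp only
    rw [ZMod.natCast_zmod_val]
  have hbn : ∀ j, b j + k ≤ n := by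
    intro j
    by_contra hcon
    push Not at hcon
    have hlt : b j < n := ZMod.val_lt _
    apply hA j
    have h1 : A j = ((b j + c - n : ℕ) : ZMod n) := by
      have h2 : A j = ((b j : ℕ) : ZMod n) + ((c : ℕ) : ZMod n) := by
        rw [hbv j]
        ring
      have h3 : ((b j + c - n : ℕ) : ZMod n) + ((n : ℕ) : ZMod n) =
          ((b j : ℕ) : ZMod n) + ((c : ℕ) : ZMod n) := by
        rw [← Nat.cast_add, ← Nat.cast_add]
        congr 1
        omega
      rw [h2, ← h3, ZMod.natCast_self, add_zero]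
    unfold idx
    rw [h1, ZMod.val_natCast, Nat.mod_eq_of_lt (by omega)]
    apply Nat.div_eq_of_lt_le
    · omega
    · omega
  refine ⟨fun j => ((b j : ℕ) : ZMod m), ?_⟩
  unfold Phi
  apply card_le_card
  intro τ hτ
  rw [mem_filter] at hτ ⊢
  refine ⟨mem_univ _, ?_⟩
  intro j l hjl
  apply hτ.2
  have hjl' : A j + ((τ j : ℕ) : ZMod n) = A l + ((τ l : ℕ) : ZMod n) := hjl
  have h1 : ((b j + (τ j : ℕ) : ℕ) : ZMod n) = ((b l + (τ l : ℕ) : ℕ) : ZMod n) := by
    push_cast
    rw [hbv, hbv]
    calc A j - ((c : ℕ) : ZMod n) + ((τ j : ℕ) : ZMod n)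
        = (A j + ((τ j : ℕ) : ZMod n)) - ((c : ℕ) : ZMod n) := by ring
      _ = (A l + ((τ l : ℕ) : ZMod n)) - ((c : ℕ) : ZMod n) := by rw [hjl']
      _ = _ := by ring
  rw [ZMod.natCast_eq_natCast_iff'] at h1
  have hj := hbn j
  have hl := hbn l
  have hj2 : (τ j : ℕ) < k := (τ j).isLt
  have hl2 : (τ l : ℕ) < k := (τ l).isLt
  rw [Nat.mod_eq_of_lt (by omega), Nat.mod_eq_of_lt (by omega)] at h1
  show ((b j : ℕ) : ZMod m) + ((τ j : ℕ) : ZMod m) = ((b l : ℕ) : ZMod m) + ((τ l : ℕ) : ZMod m)
  rw [← Nat.cast_add, ← Nat.cast_add, h1]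

theorem deg_light {n k : ℕ} (hk : 0 < k) (hkn : k ≤ n) (A : Fin k → ZMod n) (T : ℕ)
    (hT : ∀ i, cnt A i ≤ T) (u : Fin k) : deg A u ≤ 5 * T := by
  classical
  have hn : 0 < n := by omega
  have : NeZero n := ⟨hn.ne'⟩
  -- the windows which can be reached
  obtain ⟨S, hS, hS2⟩ : ∃ S : Finset ℕ, S.card ≤ 4 ∧ ∀ j, Rel A u j → idx k (A j) ∈ S := by
    set X := (A u).val with hX
    have a1 : k * (X / k) + X % k = X := Nat.div_add_mod X k
    have a2 : X % k < k := Nat.mod_lt _ hk
    have hXn : X < n := ZMod.val_lt _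
    have key : ∀ j, Rel A u j → (idx k (A j) = X / k ∨ idx k (A j) = X / k + 1 ∨
        idx k (A j) + 1 = X / k ∨ idx k (A j) = 0) ∨
        (X < k ∧ (idx k (A j) = n / k ∨ idx k (A j) + 1 = n / k)) := by
      intro j hj
      obtain ⟨s, t, hst⟩ := hj
      have hv := val_sum hn _ _ s t hst
      have hy : (A j).val < n := ZMod.val_lt _
      have hs : (s : ℕ) < k := s.isLt
      have ht : (t : ℕ) < k := t.isLt
      unfold idx
      rw [← hX] at hv
      set Y := (A j).val with hY
      have b1 : k * (Y / k) + Y % k = Y := Nat.div_add_mod Y k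
      have b2 : Y % k < k := Nat.mod_lt _ hk
      have c1 : k * (n / k) + n % k = n := Nat.div_add_mod n k
      have c2 : n % k < k := Nat.mod_lt _ hk
      have hcase : Y + (t : ℕ) = X + (s : ℕ) ∨ Y + (t : ℕ) = X + (s : ℕ) + n ∨
          Y + (t : ℕ) + n = X + (s : ℕ) := by
        have d1 : n * ((X + (s : ℕ)) / n) + (X + (s : ℕ)) % n = X + (s : ℕ) :=
          Nat.div_add_mod _ n
        have d2 : n * ((Y + (t : ℕ)) / n) + (Y + (t : ℕ)) % n = Y + (t : ℕ) :=
          Nat.div_add_mod _ n
        have d3 : (X + (s : ℕ)) / n < 2 := by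
          rw [Nat.div_lt_iff_lt_mul hn]
          omega
        have d4 : (Y + (t : ℕ)) / n < 2 := by
          rw [Nat.div_lt_iff_lt_mul hn]
          omega
        rw [hv] at d1
        interval_cases h5 : (X + (s : ℕ)) / n <;> interval_cases h6 : (Y + (t : ℕ)) / n <;> omega
      rcases hcase with h | h | h
      · left
        have b3 : Y / k < X / k + 2 := by
          rw [Nat.div_lt_iff_lt_mul hk]
          have : (X / k + 2) * k = k * (X / k) + 2 * k := by ring
          omega
        have b4 : X / k < Y / k + 2 := by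
          rw [Nat.div_lt_iff_lt_mul hk]
          have : (Y / k + 2) * k = k * (Y / k) + 2 * k := by ring
          omega
        omega
      · right
        refine ⟨by omega, ?_⟩
        have b3 : Y / k < n / k + 1 := by
          rw [Nat.div_lt_iff_lt_mul hk]
          have : (n / k + 1) * k = k * (n / k) + k := by ring
          omega
        have b4 : n / k < Y / k + 2 := by
          rw [Nat.div_lt_iff_lt_mul hk]
          have : (Y / k + 2) * k = k * (Y / k) + 2 * k := by ring
          omega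
        omega
      · left
        right; right; right
        apply Nat.div_eq_of_lt
        omega
    by_cases hXk : X < k
    · have hq : X / k = 0 := Nat.div_eq_of_lt hXk
      refine ⟨{0, 1, n / k - 1, n / k}, card_le_four, ?_⟩
      intro j hj
      simp only [mem_insert, mem_singleton]
      have := key j hj
      omega
    · refine ⟨{X / k - 1, X / k, X / k + 1, 0}, card_le_four, ?_⟩
      intro j hj
      simp only [mem_insert, mem_singleton]
      have := key j hj
      omega
  unfold deg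
  have h1 : univ.filter (fun j : Fin k => j ≠ u ∧ Rel A u j) ⊆
      S.biUnion (fun w => univ.filter (fun j : Fin k => idx k (A j) = w)) := by
    intro j hj
    rw [mem_filter] at hj
    rw [mem_biUnion]
    exact ⟨idx k (A j), hS2 j hj.2.2, by simp⟩
  calc (univ.filter (fun j : Fin k => j ≠ u ∧ Rel A u j)).card
      ≤ (S.biUnion (fun w => univ.filter (fun j : Fin k => idx k (A j) = w))).card :=
        card_le_card h1
    _ ≤ ∑ w ∈ S, (univ.filter (fun j : Fin k => idx k (A j) = w)).card := card_biUnion_le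
    _ ≤ ∑ _w ∈ S, T := sum_le_sum (fun w _ => by
        have := hT w
        unfold cnt at this
        convert this)
    _ = S.card * T := by rw [sum_const, smul_eq_mul]
    _ ≤ 5 * T := Nat.mul_le_mul (by omega) le_rfl

theorem phi_eq {n k : ℕ} (A : Fin k → ZMod n) :
    Phi A = {π : Equiv.Perm (Fin k) |
      Function.Injective (fun i : Fin k => A (π i) + (((i : ℕ)) : ZMod n))}.ncard := by
  classical
  have key : ∀ π : Equiv.Perm (Fin k),
      Function.Injective (fun i : Fin k => A (π i) + (((i : ℕ)) : ZMod n)) ↔ Good A π⁻¹ := by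
    intro π
    unfold Good
    have h1 : (fun i : Fin k => A (π i) + (((i : ℕ)) : ZMod n)) =
        (fun j : Fin k => A j + (((π⁻¹ j : Fin k) : ℕ) : ZMod n)) ∘ π := by
      funext i
      simp
    rw [h1]
    exact Function.Injective.of_comp_iff' _ π.bijective
  unfold Phi
  rw [← Set.ncard_coe_finset]
  refine Set.ncard_congr (fun τ _ => τ⁻¹) ?_ ?_ ?_
  · intro τ hτ
    rw [coe_filter] at hτ
    have hτ2 : Good A τ := hτ.2
    show Function.Injective (fun i : Fin k => A (τ⁻¹ i) + (((i : ℕ)) : ZMod n))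
    rw [key, inv_inv]
    exact hτ2
  · intro a b _ _ hab
    exact inv_injective hab
  · intro π hπ
    refine ⟨π⁻¹, ?_, inv_inv π⟩
    rw [coe_filter]
    exact ⟨mem_univ _, (key π).1 hπ⟩

end Pool.Agent.KSN
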