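import Pool.Agent.KSN.Core
import Pool.Agent.KSN.Light
import Pool.Agent.KSN.Sel
import Pool.Agent.KSN.Windows
import Pool.Agent.KSN.Few

/-!
# The main theorem
-/

set_option autoImplicit false

open Finset

namespace Pool.Agent.KSN

/-- For `n ≥ 25000000 k (log₂ k + 1)²` and every `m`, each vector modulo `n` has at least as many
assignments with distinct sums as some vector modulo `m`. -/
theorem near_linear (m n k : ℕ) (hk : 1 ≤ k) (h : 25000000 * k * (Nat.log 2 k + 1) ^ 2 ≤ n)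
    (A : Fin k → ZMod n) : ∃ B : Fin k → ZMod m, Phi B ≤ Phi A := by
  classical
  set ℓ := Nat.log 2 k + 1 with hℓ
  have hℓ1 : 1 ≤ ℓ := by omega
  set L := n / k with hL
  have hLbig : 25000000 * ℓ ^ 2 ≤ L := by
    rw [hL, Nat.le_div_iff_mul_le (by omega)]
    calc 25000000 * ℓ ^ 2 * k = 25000000 * k * ℓ ^ 2 := by ring
      _ ≤ n := h
  have hℓ2 : 1 ≤ ℓ ^ 2 := Nat.one_le_pow _ _ (by omega)
  have hkn : k ≤ n := by
    calc k ≤ 25000000 * k * ℓ ^ 2 := by nlinarith
      _ ≤ n := h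
  have hn : 0 < n := by omega
  by_cases hgap : ∃ i, i < L ∧ cnt A i = 0
  · obtain ⟨i, hi, hci⟩ := hgap
    apply gap_phi m A i (by omega)
    intro j hj
    unfold cnt at hci
    rw [card_eq_zero, filter_eq_empty_iff] at hci
    exact hci (mem_univ j) hj
  push Not at hgap
  have hb : ∀ i < L, 1 ≤ cnt A i := fun i hi => Nat.one_le_iff_ne_zero.mpr (hgap i hi)
  have hsum : ∑ i ∈ range L, cnt A i ≤ k := cnt_sum_le A _
  have hLk : L ≤ k := by
    calc L = ∑ _i ∈ range L, 1 := by simp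
      _ ≤ ∑ i ∈ range L, cnt A i := sum_le_sum (fun i hi => hb i (mem_range.mp hi))
      _ ≤ k := hsum
  have hkbig : 25000000 ≤ k := by nlinarith
  obtain ⟨W, hWne, hWL, hWD, hWE⟩ := selection (cnt A) k L 20000 hk (by norm_num) hb hsum (by
    rw [← hℓ]
    calc 2 * 20000 * ℓ * (600 * ℓ + 10) ≤ 2 * 20000 * ℓ * (610 * ℓ) := by
          apply Nat.mul_le_mul_left
          omega
      _ = 24400000 * ℓ ^ 2 := by ring
      _ ≤ 25000000 * ℓ ^ 2 := by gcongr; norm_num
      _ ≤ L := hLbig)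
  by_cases hp : ∃ p, k < 1000 * cnt A p
  · obtain ⟨p, hp⟩ := hp
    obtain ⟨i₀, hi₀⟩ := hWne
    obtain ⟨Z, hZcard, hZ⟩ := zone (n := n) (k := k) (by omega) hn p
    have hi₀L := hWL i₀ hi₀
    obtain ⟨A'', hA1, hA2⟩ := empty_window (by omega) hkn A W L p i₀ Z _ rfl
      (fun x y s t hxy hx => idx_near (by omega) x y s t hxy (hWL _ hx).1 (by
        have := (hWL _ hx).2
        omega)) hZcard hZ hWD hWE (fun i hi => (hWL i hi).1) hp hi₀ (hb i₀ (by omega))
    obtain ⟨B, hB⟩ := gap_phi m A'' i₀ (by omega) hA1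
    exact ⟨B, hB.trans hA2⟩
  · push Not at hp
    have hT : ∀ i, cnt A i ≤ k / 1000 := by
      intro i
      have := hp i
      omega
    have h1 := light (by omega) hkn A (5 * (k / 1000)) (fun u => deg_light (by omega) hkn A _ hT u)
      (by omega)
    obtain ⟨B, hB⟩ := few m k (by omega)
    refine ⟨B, ?_⟩
    have h2 : 2 ^ (k / 2) * Phi B ≤ 2 ^ (k / 2) * Phi A := hB.trans h1
    exact Nat.le_of_mul_le_mul_left h2 (by positivity)

end Pool.Agent.KSN
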